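import Mathlib
import Pool.Agent.Helper62.OB.Defs

/-!
# Torus knots with full twists on all strands: definitions

Closed braids, Markov moves, Burau matrices and the Alexander polynomial are those of
`Pool.Agent.Helper62.OB.Defs`.
-/

set_option autoImplicit false

namespace Pool.Agent.Helper71.FT

open Polynomial LaurentPolynomial
open Pool.Agent.Helper62.OB

/-- The positive crossing of `b` parallel strands with `a` parallel strands: `a b` crossings, none
between two strands of the same block. -/
def cross (m a b : ℕ) : BraidGroup m := ((List.range b).map fun k => rn m k a).prod

/-- The crossing of `b` parallel strands with `a` parallel strands, followed by `M` full twists on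
all the `m + 1` strands (`M` an integer). -/
def ft (m a b : ℕ) (M : ℤ) : BraidGroup m := cross m a b * (rn m 0 m ^ (m + 1)) ^ M

/-- The exponents `a ⌊R b / n⌋ + min (R b mod n) a`. -/
def tau (n a b R : ℕ) : ℕ := a * (R * b / n) + min (R * b % n) a

end Pool.Agent.Helper71.FT
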