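import Mathlib
import Pool.Agent.Helper71.FT.Defs
import Pool.Agent.Helper62.OB.St.BurauRn

/-!
# FT-A: the Burau matrix of the crossing of two blocks

* `burau_rn_act`: induction on `a`: `rn m k (a + 1) = sg m (k + a) * rn m k a`; the factor on the left changes the
  entries `k + a` and `k + a + 1` of a vector `v`: new `v (k + a) = (1 - T 1) v (k + a) + T 1 * v (k + a + 1)`, new
  `v (k + a + 1) = v (k + a)` (compare `burau_rn`, `burauRn_mul_apply`, `burauRn_sg` in `OB/St/BurauRn.lean`).
* `burau_cross_act`: induction on `b`: `cross m a (b + 1) = cross m a b * rn m b a` (`List.range_succ`), so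
  `burau (cross m a (b + 1)) *ᵥ f = burau (cross m a b) *ᵥ h`, where `h = burau (rn m b a) *ᵥ f` is given by
  `burau_rn_act`: `h l = f l` for `l < b`, `h (b + j) = (1 - T 1) f b + T 1 * f (b + j + 1)` for `j < a`, `h (b + a) = f b`,
  `h l = f l` for `l > b + a`.
-/

set_option autoImplicit false

namespace Pool.Agent.Helper71.FT

open Polynomial LaurentPolynomial
open Pool.Agent.Helper62.OB

private theorem bmat_act (m c : ℕ) (hc : c < m) (g : Fin (m + 1) → ℤ[T;T⁻¹]) (i : Fin (m + 1)) :
    (bmat m (T 1 : ℤ[T;T⁻¹]) ⟨c, hc⟩).mulVec g i =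
      if i.val = c then (1 - T 1) * g ⟨c, by omega⟩ + T 1 * g ⟨c + 1, by omega⟩
      else if i.val = c + 1 then g ⟨c, by omega⟩ else g i := by
  have e1 : (⟨c, hc⟩ : Fin m).castSucc = (⟨c, by omega⟩ : Fin (m + 1)) := rfl
  have e2 : (⟨c, hc⟩ : Fin m).succ = (⟨c + 1, by omega⟩ : Fin (m + 1)) := rfl
  have h1 : (bmat m (T 1 : ℤ[T;T⁻¹]) ⟨c, hc⟩).mulVec g i =
      g i + bcol m (T 1) ⟨c, hc⟩ i * (g ⟨c, by omega⟩ - g ⟨c + 1, by omega⟩) := by
    unfold bmat
    rw [Matrix.add_mulVec, Matrix.one_mulVec, Pi.add_apply, Matrix.vecMulVec_mulVec]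
    rw [brow_dot, e1, e2]
    simp
  rw [h1]
  unfold bcol
  rw [e1, e2]
  by_cases h2 : i.val = c
  · have h3 : i = (⟨c, by omega⟩ : Fin (m + 1)) := Fin.ext h2
    rw [if_pos h3, if_pos h2, h3]
    ring
  · have h3 : i ≠ (⟨c, by omega⟩ : Fin (m + 1)) := fun h => h2 (congrArg Fin.val h)
    rw [if_neg h3, if_neg h2]
    by_cases h4 : i.val = c + 1
    · have h5 : i = (⟨c + 1, by omega⟩ : Fin (m + 1)) := Fin.ext h4
      rw [if_pos h5, if_pos h4, h5]
      ring
    · have h5 : i ≠ (⟨c + 1, by omega⟩ : Fin (m + 1)) := fun h => h4 (congrArg Fin.val h)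
      rw [if_neg h5, if_neg h4]
      ring

theorem burau_rn_act (m k a : ℕ) (h : k + a ≤ m) (f : ℕ → ℤ[T;T⁻¹]) (i : Fin (m + 1)) :
    (burau m (rn m k a) : Matrix (Fin (m + 1)) (Fin (m + 1)) ℤ[T;T⁻¹]).mulVec
      (fun j => f j.val) i =
      if i.val < k then f i.val
      else if i.val < k + a then (1 - T 1) * f k + T 1 * f (i.val + 1)
      else if i.val = k + a then f k else f i.val := by
  induction a generalizing i with
  | zero =>
    change (burau m 1 : Matrix (Fin (m + 1)) (Fin (m + 1)) ℤ[T;T⁻¹]).mulVec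
      (fun j => f j.val) i = _
    rw [map_one, Units.val_one, Matrix.one_mulVec, add_zero]
    by_cases h1 : i.val < k
    · rw [if_pos h1]
    · rw [if_neg h1, if_neg h1]
      by_cases h2 : i.val = k
      · rw [if_pos h2, h2]
      · rw [if_neg h2]
  | succ a ih =>
    have hc : k + a < m := by omega
    have h2 : rn m k (a + 1) = sg m (k + a) * rn m k a := rfl
    rw [h2, map_mul, Units.val_mul, ← Matrix.mulVec_mulVec, burauRn_sg m (k + a) hc,
      bmat_act m (k + a) hc]
    rw [ih (by omega), ih (by omega), ih (by omega)]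
    dsimp only
    by_cases c1 : i.val < k
    · rw [if_neg (show ¬ i.val = k + a by omega), if_neg (show ¬ i.val = k + a + 1 by omega),
        if_pos c1, if_pos c1]
    · by_cases c2 : i.val < k + a
      · rw [if_neg (show ¬ i.val = k + a by omega), if_neg (show ¬ i.val = k + a + 1 by omega),
          if_neg c1, if_pos c2, if_neg c1, if_pos (show i.val < k + (a + 1) by omega)]
      · by_cases c3 : i.val = k + a
        · rw [if_pos c3, if_neg c1, if_pos (show i.val < k + (a + 1) by omega),
            if_neg (show ¬ k + a < k by omega), if_neg (lt_irrefl (k + a)), if_pos (rfl : k + a = k + a),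
            if_neg (show ¬ k + a + 1 < k by omega), if_neg (show ¬ k + a + 1 < k + a by omega),
            if_neg (show ¬ k + a + 1 = k + a by omega), c3]
        · rw [if_neg c3, if_neg c1]
          by_cases c4 : i.val = k + a + 1
          · rw [if_pos c4, if_neg (show ¬ k + a < k by omega), if_neg (lt_irrefl (k + a)),
              if_pos (rfl : k + a = k + a), if_neg c1, if_neg (show ¬ i.val < k + (a + 1) by omega),
              if_pos (show i.val = k + (a + 1) by omega)]
          · rw [if_neg c4, if_neg c1, if_neg c2, if_neg c3,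
              if_neg (show ¬ i.val < k + (a + 1) by omega),
              if_neg (show ¬ i.val = k + (a + 1) by omega)]

theorem burau_cross_act (m a b : ℕ) (ha : 1 ≤ a) (h : a + b ≤ m + 1) (f : ℕ → ℤ[T;T⁻¹])
    (i : Fin (m + 1)) :
    (burau m (cross m a b) : Matrix (Fin (m + 1)) (Fin (m + 1)) ℤ[T;T⁻¹]).mulVec
      (fun j => f j.val) i =
      if i.val < a then (1 - T 1) * (∑ l ∈ Finset.range b, T (l : ℤ) * f l) +
        T (b : ℤ) * f (b + i.val)
      else if i.val < a + b then f (i.val - a) else f i.val := by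
  induction b generalizing f i with
  | zero =>
    change (burau m 1 : Matrix (Fin (m + 1)) (Fin (m + 1)) ℤ[T;T⁻¹]).mulVec
      (fun j => f j.val) i = _
    rw [map_one, Units.val_one, Matrix.one_mulVec, add_zero, Finset.range_zero, Finset.sum_empty,
      mul_zero, zero_add, Nat.cast_zero, T_zero, one_mul, zero_add]
    by_cases h1 : i.val < a
    · rw [if_pos h1]
    · rw [if_neg h1, if_neg h1]
  | succ b ih =>
    have h2 : cross m a (b + 1) = cross m a b * rn m b a := by
      unfold cross
      rw [List.range_succ, List.map_append, List.prod_append]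
      simp
    obtain ⟨g, hg⟩ : ∃ g : ℕ → ℤ[T;T⁻¹], ∀ l, g l = if l < b then f l
        else if l < b + a then (1 - T 1) * f b + T 1 * f (l + 1)
        else if l = b + a then f b else f l := ⟨_, fun _ => rfl⟩
    have h3 : (burau m (rn m b a) : Matrix (Fin (m + 1)) (Fin (m + 1)) ℤ[T;T⁻¹]).mulVec
        (fun j => f j.val) = fun j : Fin (m + 1) => g j.val := by
      funext j
      rw [hg]
      exact burau_rn_act m b a (by omega) f j
    rw [h2, map_mul, Units.val_mul, ← Matrix.mulVec_mulVec, h3, ih (by omega)]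
    by_cases c1 : i.val < a
    · rw [if_pos c1, if_pos c1, hg (b + i.val), if_neg (show ¬ b + i.val < b by omega),
        if_pos (show b + i.val < b + a by omega), Finset.sum_range_succ]
      have h4 : ∑ l ∈ Finset.range b, (T (l : ℤ) : ℤ[T;T⁻¹]) * g l =
          ∑ l ∈ Finset.range b, T (l : ℤ) * f l := by
        refine Finset.sum_congr rfl fun l hl => ?_
        rw [hg, if_pos (Finset.mem_range.1 hl)]
      rw [h4]
      have h5 : (T ((b + 1 : ℕ) : ℤ) : ℤ[T;T⁻¹]) = T (b : ℤ) * T 1 := by
        rw [← T_add]; push_cast; rfl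
      rw [h5, show b + 1 + i.val = b + i.val + 1 by omega]
      ring
    · rw [if_neg c1, if_neg c1]
      by_cases c2 : i.val < a + b
      · rw [if_pos c2, if_pos (show i.val < a + (b + 1) by omega), hg,
          if_pos (show i.val - a < b by omega)]
      · rw [if_neg c2, hg, if_neg (show ¬ i.val < b by omega),
          if_neg (show ¬ i.val < b + a by omega)]
        by_cases c3 : i.val = b + a
        · rw [if_pos c3, if_pos (show i.val < a + (b + 1) by omega),
            show i.val - a = b by omega]
        · rw [if_neg c3, if_neg (show ¬ i.val < a + (b + 1) by omega)]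

end Pool.Agent.Helper71.FT
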