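import Mathlib
import Pool.Agent.Helper71.FT.BurA

/-!
# FT-B: the Burau matrix of the crossing in the coordinates `G_i = ∑_{l < i} x^l f_l`

`n = m + 1 = a + b`, `x = T 1`, `N` the Burau matrix of `cross m a b`.  `lowM i l = T l` for `l ≤ i` (row `i` is the functional `G_{i+1}`),
`crossC` is the matrix of `N` in these coordinates: `G_i ∘ N = G_{i+b} - x^i G_b` for `i ≤ a` and `G_{a+l} ∘ N = G_n - x^a G_b + x^a G_l` for
`1 ≤ l ≤ b` (for `i ≤ a`: `∑_{j<i} x^j ((1 - x) G_b + x^b f_{b+j}) = (1 - x^i) G_b + (G_{b+i} - G_b)`; for `i = a + l` add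
`∑_{l'<l} x^{a+l'} f_{l'} = x^a G_l`).
* `low_mul`: compare `(lowM * N) *ᵥ f` and `(crossC * lowM) *ᵥ f` for all `f : ℕ → _` (`burau_cross_act`; every vector on `Fin (m + 1)` is of this
  form), or the entries.
* `det_low`: `lowM` is lower triangular with the units `T i` on the diagonal, so its determinant is a unit (or not zero in the domain `ℤ[T;T⁻¹]`) and
  `lowM * (1 - c • N) = (1 - c • crossC) * lowM` gives the first equation.
* the last row of `crossC` is `e_m` (`i = m`: `[k = m] - T a [k + 1 = b] + T a [k + a = m]`, and `k + a = m` iff `k + 1 = b`), so expanding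
  along the last row gives the factor `1 - c` (`Matrix.det_succ_row _ (Fin.last m)`), and the rest is the submatrix without last row and column.
-/

set_option autoImplicit false

namespace Pool.Agent.Helper71.FT

open Polynomial LaurentPolynomial
open Pool.Agent.Helper62.OB

/-- the coordinates `G_{i+1}` -/
noncomputable def lowM (m : ℕ) : Matrix (Fin (m + 1)) (Fin (m + 1)) ℤ[T;T⁻¹] :=
  Matrix.of fun i l => if l.val ≤ i.val then T (l.val : ℤ) else 0

/-- the matrix of the crossing in these coordinates -/
noncomputable def crossC (m a b : ℕ) : Matrix (Fin (m + 1)) (Fin (m + 1)) ℤ[T;T⁻¹] :=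
  Matrix.of fun i k => if i.val + 1 ≤ a then
      (if k.val = i.val + b then 1 else 0) - T ((i.val : ℤ) + 1) * (if k.val + 1 = b then 1 else 0)
    else (if k.val = m then 1 else 0) - T (a : ℤ) * (if k.val + 1 = b then 1 else 0) +
      T (a : ℤ) * (if k.val + a = i.val then 1 else 0)

private theorem fb1_low (m i : ℕ) (hi : i ≤ m) (u : ℕ → ℤ[T;T⁻¹]) :
    ∑ l ∈ Finset.range (m + 1), (if l ≤ i then T (l : ℤ) else 0) * u l =
      ∑ l ∈ Finset.range (i + 1), T (l : ℤ) * u l := by
  rw [← Finset.sum_subset (Finset.range_mono (by omega : i + 1 ≤ m + 1))]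
  · refine Finset.sum_congr rfl fun l hl => ?_
    rw [if_pos (by have := Finset.mem_range.mp hl; omega)]
  · intro l _ hl
    rw [if_neg (by rw [Finset.mem_range] at hl; omega), zero_mul]

private theorem fb1_mulVec (m : ℕ) (u : ℕ → ℤ[T;T⁻¹]) (i : Fin (m + 1)) :
    (lowM m).mulVec (fun j => u j.val) i = ∑ l ∈ Finset.range (i.val + 1), T (l : ℤ) * u l := by
  rw [← fb1_low m i.val (by have := i.isLt; omega) u,
    ← Fin.sum_univ_eq_sum_range (fun l => (if l ≤ i.val then T (l : ℤ) else 0) * u l) (m + 1)]
  rfl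

private theorem fb1_single (m c : ℕ) (hc : c ≤ m) (u : ℕ → ℤ[T;T⁻¹]) :
    ∑ k ∈ Finset.range (m + 1), (if k = c then 1 else 0) * u k = u c := by
  rw [Finset.sum_eq_single c]
  · rw [if_pos rfl, one_mul]
  · intro k _ hk
    rw [if_neg hk, zero_mul]
  · intro h
    exact absurd (Finset.mem_range.mpr (by omega)) h

private theorem fb1_lt (a b n : ℕ) (hn : n ≤ a) (f : ℕ → ℤ[T;T⁻¹]) :
    ∑ l ∈ Finset.range n, T (l : ℤ) * (if l < a then
        (1 - T 1) * (∑ l ∈ Finset.range b, T (l : ℤ) * f l) + T (b : ℤ) * f (b + l)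
        else f (l - a)) =
      ∑ l ∈ Finset.range (b + n), T (l : ℤ) * f l -
        T (n : ℤ) * ∑ l ∈ Finset.range b, T (l : ℤ) * f l := by
  induction n with
  | zero =>
    rw [Finset.sum_range_zero, add_zero, Nat.cast_zero, T_zero, one_mul, sub_self]
  | succ n ih =>
    have e1 : (T ((b + n : ℕ) : ℤ) : ℤ[T;T⁻¹]) = T (n : ℤ) * T (b : ℤ) := by
      rw [← T_add]
      congr 1
      push_cast
      ring
    have e2 : (T ((n + 1 : ℕ) : ℤ) : ℤ[T;T⁻¹]) = T (n : ℤ) * T 1 := by
      rw [← T_add]
      congr 1
    rw [Finset.sum_range_succ, ih (by omega), if_pos (by omega), ← Nat.add_assoc,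
      Finset.sum_range_succ (fun l => T (l : ℤ) * f l) (b + n), e1, e2]
    ring

private theorem fb1_ge (a b j : ℕ) (f : ℕ → ℤ[T;T⁻¹]) :
    ∑ l ∈ Finset.range (a + j), T (l : ℤ) * (if l < a then
        (1 - T 1) * (∑ l ∈ Finset.range b, T (l : ℤ) * f l) + T (b : ℤ) * f (b + l)
        else f (l - a)) =
      ∑ l ∈ Finset.range (b + a), T (l : ℤ) * f l -
        T (a : ℤ) * ∑ l ∈ Finset.range b, T (l : ℤ) * f l +
        T (a : ℤ) * ∑ l ∈ Finset.range j, T (l : ℤ) * f l := by
  induction j with
  | zero =>
    rw [Finset.sum_range_zero, mul_zero, add_zero, add_zero, fb1_lt a b a le_rfl f]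
  | succ j ih =>
    have e1 : (T ((a + j : ℕ) : ℤ) : ℤ[T;T⁻¹]) = T (a : ℤ) * T (j : ℤ) := by
      rw [← T_add]
      congr 1
    rw [← Nat.add_assoc, Finset.sum_range_succ, ih, if_neg (by omega), Nat.add_sub_cancel_left,
      Finset.sum_range_succ (fun l => T (l : ℤ) * f l) j, e1]
    ring

theorem low_mul (m a b : ℕ) (ha : 1 ≤ a) (hb : 1 ≤ b) (hab : a + b = m + 1) :
    lowM m * (burau m (cross m a b) : Matrix (Fin (m + 1)) (Fin (m + 1)) ℤ[T;T⁻¹]) =
      crossC m a b * lowM m := by
  have key : ∀ v : Fin (m + 1) → ℤ[T;T⁻¹],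
      (lowM m * (burau m (cross m a b) :
        Matrix (Fin (m + 1)) (Fin (m + 1)) ℤ[T;T⁻¹])).mulVec v =
      (crossC m a b * lowM m).mulVec v := by
    intro v
    obtain ⟨f, hf⟩ : ∃ f : ℕ → ℤ[T;T⁻¹], v = fun j => f j.val := by
      refine ⟨fun j => if h : j < m + 1 then v ⟨j, h⟩ else 0, ?_⟩
      funext j
      show v j = if h : j.val < m + 1 then v ⟨j.val, h⟩ else 0
      rw [dif_pos j.isLt]
    subst hf
    rw [← Matrix.mulVec_mulVec, ← Matrix.mulVec_mulVec]
    have h1 : (burau m (cross m a b) : Matrix (Fin (m + 1)) (Fin (m + 1)) ℤ[T;T⁻¹]).mulVec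
        (fun j => f j.val) = fun i : Fin (m + 1) => (fun l : ℕ => if l < a then
          (1 - T 1) * (∑ l ∈ Finset.range b, T (l : ℤ) * f l) + T (b : ℤ) * f (b + l)
          else f (l - a)) i.val := by
      funext i
      rw [burau_cross_act m a b ha (by omega) f i]
      by_cases hi : i.val < a
      · simp only [if_pos hi]
      · simp only [if_neg hi]
        rw [if_pos (by have := i.isLt; omega)]
    have h2 : (lowM m).mulVec (fun j => f j.val) = fun i : Fin (m + 1) =>
        (fun k : ℕ => ∑ l ∈ Finset.range (k + 1), T (l : ℤ) * f l) i.val := by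
      funext i
      exact fb1_mulVec m f i
    rw [h1, h2]
    funext i
    refine (fb1_mulVec m (fun l : ℕ => if l < a then
      (1 - T 1) * (∑ l ∈ Finset.range b, T (l : ℤ) * f l) + T (b : ℤ) * f (b + l)
      else f (l - a)) i).trans ?_
    have h3 : (crossC m a b).mulVec (fun i : Fin (m + 1) =>
        (fun k : ℕ => ∑ l ∈ Finset.range (k + 1), T (l : ℤ) * f l) i.val) i =
        ∑ k ∈ Finset.range (m + 1), (if i.val + 1 ≤ a then
          (if k = i.val + b then 1 else 0) -
            T ((i.val : ℤ) + 1) * (if k + 1 = b then 1 else 0)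
          else (if k = m then 1 else 0) - T (a : ℤ) * (if k + 1 = b then 1 else 0) +
          T (a : ℤ) * (if k + a = i.val then 1 else 0)) *
          ∑ l ∈ Finset.range (k + 1), T (l : ℤ) * f l := by
      rw [← Fin.sum_univ_eq_sum_range (fun k => (if i.val + 1 ≤ a then
          (if k = i.val + b then 1 else 0) -
            T ((i.val : ℤ) + 1) * (if k + 1 = b then 1 else 0)
          else (if k = m then 1 else 0) - T (a : ℤ) * (if k + 1 = b then 1 else 0) +
          T (a : ℤ) * (if k + a = i.val then 1 else 0)) *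
          ∑ l ∈ Finset.range (k + 1), T (l : ℤ) * f l) (m + 1)]
      rfl
    rw [h3]
    have hi := i.isLt
    have hbk : ∀ k : ℕ, (k + 1 = b) = (k = b - 1) := fun k => by
      apply propext
      omega
    by_cases hia : i.val + 1 ≤ a
    · refine (fb1_lt a b (i.val + 1) hia f).trans ?_
      simp only [if_pos hia, sub_mul, mul_assoc, hbk]
      rw [Finset.sum_sub_distrib, ← Finset.mul_sum, fb1_single m (i.val + b) (by omega),
        fb1_single m (b - 1) (by omega)]
      have e1 : i.val + b + 1 = b + (i.val + 1) := by omega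
      have e2 : b - 1 + 1 = b := by omega
      rw [e1, e2]
      push_cast
      ring
    · have hka : ∀ k : ℕ, (k + a = i.val) = (k = i.val - a) := fun k => by
        apply propext
        omega
      have e1 : i.val + 1 = a + (i.val + 1 - a) := by omega
      have h5 := fb1_ge a b (i.val + 1 - a) f
      rw [← e1] at h5
      refine h5.trans ?_
      simp only [if_neg hia, sub_mul, add_mul, mul_assoc, hbk, hka]
      rw [Finset.sum_add_distrib, Finset.sum_sub_distrib, ← Finset.mul_sum, ← Finset.mul_sum,
        fb1_single m m le_rfl, fb1_single m (b - 1) (by omega),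
        fb1_single m (i.val - a) (by omega)]
      have e2 : b - 1 + 1 = b := by omega
      have e3 : b + a = m + 1 := by omega
      have e4 : i.val - a + 1 = i.val + 1 - a := by omega
      rw [e2, e3, e4]
  refine Matrix.ext fun i j => ?_
  have h := congrFun (key (Pi.single j 1)) i
  rw [Matrix.mulVec_single_one, Matrix.mulVec_single_one] at h
  exact h

private theorem dl_unit (m : ℕ) : IsUnit (lowM m).det := by
  rw [Matrix.det_of_lowerTriangular (lowM m) (by
    intro i j hij
    have h : i < j := hij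
    have h2 : i.val < j.val := h
    show (if j.val ≤ i.val then T (j.val : ℤ) else 0) = (0 : ℤ[T;T⁻¹])
    rw [if_neg (by omega)])]
  have h : ∀ s : Finset (Fin (m + 1)), IsUnit (∏ i ∈ s, lowM m i i) := by
    intro s
    induction s using Finset.induction_on with
    | empty => rw [Finset.prod_empty]; exact isUnit_one
    | insert a s ha ih =>
      rw [Finset.prod_insert ha]
      refine IsUnit.mul ?_ ih
      have e : lowM m a a = T (a.val : ℤ) := by
        show (if a.val ≤ a.val then T (a.val : ℤ) else 0) = T (a.val : ℤ)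
        rw [if_pos le_rfl]
      rw [e]
      exact isUnit_T _
  exact h Finset.univ

private theorem dl_last (m a b : ℕ) (hb : 1 ≤ b) (hab : a + b = m + 1) (k : Fin (m + 1)) :
    crossC m a b (Fin.last m) k = if k = Fin.last m then 1 else 0 := by
  have hk : (k = Fin.last m) = (k.val = m) := by
    apply propext
    rw [Fin.ext_iff, Fin.val_last]
  have hka : (k.val + a = m) = (k.val + 1 = b) := by
    apply propext
    omega
  show (if m + 1 ≤ a then
      (if k.val = m + b then 1 else 0) - T ((m : ℤ) + 1) * (if k.val + 1 = b then 1 else 0)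
    else (if k.val = m then 1 else 0) - T (a : ℤ) * (if k.val + 1 = b then 1 else 0) +
      T (a : ℤ) * (if k.val + a = m then 1 else 0)) = (if k = Fin.last m then 1 else 0 : ℤ[T;T⁻¹])
  rw [if_neg (by omega)]
  simp only [hk, hka]
  ring

private theorem dl_sub (m a b : ℕ) (hab : a + b = m + 1) (i k : Fin m) :
    crossC m a b i.castSucc k.castSucc =
      (if i.val + 1 < a ∧ k.val = i.val + b then 1 else 0) +
          (if a < i.val + 1 ∧ k.val + a = i.val then T (a : ℤ) else 0) -
          (if k.val + 1 = b then T ((min (i.val + 1) a : ℕ) : ℤ) else 0) := by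
  have hi := i.isLt
  have hk := k.isLt
  show (if i.val + 1 ≤ a then
      (if k.val = i.val + b then 1 else 0) - T ((i.val : ℤ) + 1) * (if k.val + 1 = b then 1 else 0)
    else (if k.val = m then 1 else 0) - T (a : ℤ) * (if k.val + 1 = b then 1 else 0) +
      T (a : ℤ) * (if k.val + a = i.val then 1 else 0)) = _
  by_cases h1 : i.val + 1 ≤ a
  · rw [if_pos h1, Nat.min_eq_left h1]
    have e1 : (i.val + 1 < a ∧ k.val = i.val + b) = (k.val = i.val + b) := by
      apply propext
      constructor
      · exact fun h => h.2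
      · intro h
        exact ⟨by omega, h⟩
    have e2 : (a < i.val + 1 ∧ k.val + a = i.val) = False := by
      apply propext
      constructor
      · intro h
        omega
      · exact False.elim
    simp only [e1, e2, if_false]
    push_cast
    split_ifs <;> ring
  · rw [if_neg h1, Nat.min_eq_right (by omega)]
    have e1 : (i.val + 1 < a ∧ k.val = i.val + b) = False := by
      apply propext
      constructor
      · intro h
        omega
      · exact False.elim
    have e2 : (a < i.val + 1 ∧ k.val + a = i.val) = (k.val + a = i.val) := by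
      apply propext
      constructor
      · exact fun h => h.2
      · intro h
        exact ⟨by omega, h⟩
    have e3 : ¬ k.val = m := by omega
    simp only [e1, e2, e3, if_false]
    split_ifs <;> ring

theorem det_low (m a b : ℕ) (ha : 1 ≤ a) (hb : 1 ≤ b) (hab : a + b = m + 1) (c : ℤ[T;T⁻¹]) :
    (1 - c • (burau m (cross m a b) : Matrix (Fin (m + 1)) (Fin (m + 1)) ℤ[T;T⁻¹])).det =
      (1 - c) * (Matrix.of fun i k : Fin m => (if i = k then 1 else 0) -
        c * ((if i.val + 1 < a ∧ k.val = i.val + b then 1 else 0) +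
          (if a < i.val + 1 ∧ k.val + a = i.val then T (a : ℤ) else 0) -
          (if k.val + 1 = b then T ((min (i.val + 1) a : ℕ) : ℤ) else 0)) :
            Matrix (Fin m) (Fin m) ℤ[T;T⁻¹]).det := by
  have h1 : lowM m * (1 - c • (burau m (cross m a b) : Matrix (Fin (m + 1)) (Fin (m + 1)) ℤ[T;T⁻¹])) =
      (1 - c • crossC m a b) * lowM m := by
    rw [Matrix.mul_sub, Matrix.sub_mul, Matrix.mul_one, Matrix.one_mul, Matrix.mul_smul,
      Matrix.smul_mul, low_mul m a b ha hb hab]
  have h2 : (1 - c • (burau m (cross m a b) : Matrix (Fin (m + 1)) (Fin (m + 1)) ℤ[T;T⁻¹])).det =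
      (1 - c • crossC m a b).det := by
    have h3 := congrArg Matrix.det h1
    rw [Matrix.det_mul, Matrix.det_mul, mul_comm _ (lowM m).det] at h3
    exact (dl_unit m).mul_left_cancel h3
  rw [h2, Matrix.det_succ_row _ (Fin.last m), Finset.sum_eq_single (Fin.last m)]
  · have e1 : (1 - c • crossC m a b : Matrix (Fin (m + 1)) (Fin (m + 1)) ℤ[T;T⁻¹]) (Fin.last m)
        (Fin.last m) = 1 - c := by
      rw [Matrix.sub_apply, Matrix.one_apply_eq, Matrix.smul_apply, dl_last m a b hb hab,
        if_pos rfl, smul_eq_mul, mul_one]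
    have e2 : (-1 : ℤ[T;T⁻¹]) ^ ((Fin.last m : Fin (m + 1)).val + (Fin.last m : Fin (m + 1)).val) = 1 := by
      rw [← two_mul, pow_mul]
      norm_num
    rw [e1, e2, one_mul]
    congr 2
    ext i k
    rw [Matrix.submatrix_apply, Fin.succAbove_last, Matrix.sub_apply, Matrix.smul_apply,
      dl_sub m a b hab, smul_eq_mul, Matrix.of_apply, Matrix.one_apply]
    simp only [Fin.castSucc_inj]
  · intro k _ hk
    have e1 : (1 - c • crossC m a b : Matrix (Fin (m + 1)) (Fin (m + 1)) ℤ[T;T⁻¹]) (Fin.last m) k = 0 := by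
      rw [Matrix.sub_apply, Matrix.one_apply_ne (Ne.symm hk), Matrix.smul_apply,
        dl_last m a b hb hab, if_neg hk, smul_zero, sub_zero]
    rw [e1, mul_zero, zero_mul]
  · intro h
    exact absurd (Finset.mem_univ _) h

end Pool.Agent.Helper71.FT
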