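import Mathlib
import Pool.Agent.Helper71.FT.Defs
import Pool.Agent.Helper62.OB.St.LinAlg

/-!
# FT-C: the determinant in companion form

`n = m + 1 = a + b`.  The map `t ↦ (t + 1) b mod n - 1` is a permutation of `Fin m` (`b` is prime to `n`, so `(t + 1) b mod n` is not `0` for
`t + 1 < n`, and injective).  Write `r t = (t + 1) b mod n`.  Reindex the matrix by it (`Matrix.det_submatrix_equiv_self`): the entry `(t, u)` is
`[t = u] - c [u = t + 1] w t + c [u = 0] x^{min (r t) a}`, `w t = 1` if `r t < a`, `w t = x^a` if `r t > a`: indeed `r (t + 1) = r t + b` if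
`r t < a`, `r (t + 1) = r t - a` if `r t ≥ a`, and `r t = a` exactly for `t + 1 = m` (`t + 1 = n - 1`); `r 0 = b`.  For `m = m' + 1` `det_cyclic m'`
(`OB/St/LinAlg.lean`) gives `det = 1 + ∑_{t < m} c x^{min (r t) a} ∏_{u < t} c w u`, and `∏_{u < t} w u = x^{a ⌊(t + 1) b / n⌋}` (induction on
`t < m`), i.e. the terms `R = t + 1` of the sum; the term `R = 0` is `1`.
-/

set_option autoImplicit false

namespace Pool.Agent.Helper71.FT

open Polynomial LaurentPolynomial
open Pool.Agent.Helper62.OB

private theorem cop_mod {m a b : ℕ} (hab : a + b = m + 1) (hc : Nat.Coprime a b) :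
    Nat.Coprime (m + 1) b := by
  rw [← hab]
  exact (Nat.coprime_add_self_left).2 hc

private theorem mul_mod_inj {n b s t : ℕ} (hn : Nat.Coprime n b)
    (h : s * b % n = t * b % n) : s % n = t % n :=
  Nat.ModEq.cancel_right_of_coprime hn h

private theorem r_pos {m b t : ℕ} (hn : Nat.Coprime (m + 1) b) (ht : t < m) :
    0 < (t + 1) * b % (m + 1) := by
  rcases Nat.eq_zero_or_pos ((t + 1) * b % (m + 1)) with h | h
  · exfalso
    have h1 : (t + 1) * b % (m + 1) = 0 * b % (m + 1) := by rw [h, zero_mul, Nat.zero_mod]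
    have h2 := mul_mod_inj hn h1
    rw [Nat.mod_eq_of_lt (by omega), Nat.zero_mod] at h2
    omega
  · exact h

private theorem r_succ {m a b t : ℕ} (hab : a + b = m + 1) :
    ((t + 1) * b % (m + 1) < a → (t + 2) * b % (m + 1) = (t + 1) * b % (m + 1) + b ∧
      (t + 2) * b / (m + 1) = (t + 1) * b / (m + 1)) ∧
    (a ≤ (t + 1) * b % (m + 1) → (t + 2) * b % (m + 1) + a = (t + 1) * b % (m + 1) ∧
      (t + 2) * b / (m + 1) = (t + 1) * b / (m + 1) + 1) := by
  set r := (t + 1) * b % (m + 1) with hr
  set q := (t + 1) * b / (m + 1) with hq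
  have h1 : (t + 1) * b = (m + 1) * q + r := by
    rw [hq, hr]
    exact (Nat.div_add_mod _ _).symm
  have hrlt : r < m + 1 := Nat.mod_lt _ (Nat.succ_pos m)
  have h2 : (t + 2) * b = (m + 1) * q + (r + b) := by
    have : (t + 2) * b = (t + 1) * b + b := by ring
    rw [this, h1]
    ring
  constructor
  · intro h
    constructor
    · rw [h2, Nat.mul_add_mod, Nat.mod_eq_of_lt (by omega)]
    · rw [h2, Nat.mul_add_div (Nat.succ_pos m), Nat.div_eq_of_lt (by omega), add_zero]
  · intro h
    have h3 : (t + 2) * b = (m + 1) * (q + 1) + (r - a) := by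
      rw [h2]
      have : r + b = (m + 1) + (r - a) := by omega
      rw [this]
      ring
    constructor
    · rw [h3, Nat.mul_add_mod, Nat.mod_eq_of_lt (by omega)]
      omega
    · rw [h3, Nat.mul_add_div (Nat.succ_pos m), Nat.div_eq_of_lt (by omega), add_zero]

private theorem r_eq_iff {m b t u : ℕ} (hn : Nat.Coprime (m + 1) b) (ht : t < m) (hu : u < m) :
    (u + 1) * b % (m + 1) = (t + 2) * b % (m + 1) ↔ u = t + 1 := by
  constructor
  · intro h
    have h1 := mul_mod_inj hn h
    rw [Nat.mod_eq_of_lt (show u + 1 < m + 1 by omega)] at h1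
    rcases Nat.lt_or_ge (t + 2) (m + 1) with h2 | h2
    · rw [Nat.mod_eq_of_lt h2] at h1
      omega
    · have h3 : t + 2 = m + 1 := by omega
      rw [h3, Nat.mod_self] at h1
      omega
  · rintro rfl
    rfl

theorem det_companion {A : Type*} [CommRing A] (m a b : ℕ) (ha : 1 ≤ a) (hb : 1 ≤ b)
    (hab : a + b = m + 1) (hc : Nat.Coprime a b) (c x : A) :
    (Matrix.of fun i k : Fin m => (if i = k then 1 else 0) -
        c * ((if i.val + 1 < a ∧ k.val = i.val + b then 1 else 0) +
          (if a < i.val + 1 ∧ k.val + a = i.val then x ^ a else 0) -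
          (if k.val + 1 = b then x ^ min (i.val + 1) a else 0)) :
            Matrix (Fin m) (Fin m) A).det =
      ∑ R ∈ Finset.range (m + 1), c ^ R * x ^ tau (m + 1) a b R := by
  have hn := cop_mod hab hc
  obtain ⟨m', rfl⟩ : ∃ m', m = m' + 1 := ⟨m - 1, by omega⟩
  set r : ℕ → ℕ := fun t => (t + 1) * b % (m' + 1 + 1) with hr
  have hrpos : ∀ t, t < m' + 1 → 0 < r t := fun t ht => r_pos hn ht
  have hrlt : ∀ t, r t < m' + 1 + 1 := fun t => Nat.mod_lt _ (Nat.succ_pos _)
  have hf : ∀ t : Fin (m' + 1), r t - 1 < m' + 1 := fun t => by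
    have := hrlt t
    have := hrpos t t.2
    omega
  set f : Fin (m' + 1) → Fin (m' + 1) := fun t => ⟨r t - 1, hf t⟩ with hfd
  have hfv : ∀ t, (f t).val + 1 = r t := fun t => by
    have := hrpos t t.2
    show r t - 1 + 1 = r t
    omega
  have hinj : Function.Injective f := by
    intro t u h
    have h1 : r t = r u := by rw [← hfv t, ← hfv u, h]
    have h2 := mul_mod_inj hn (s := t.val + 1) (t := u.val + 1) h1
    have ht := t.2
    have hu := u.2
    rw [Nat.mod_eq_of_lt (by omega), Nat.mod_eq_of_lt (by omega)] at h2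
    exact Fin.ext (by omega)
  set e : Fin (m' + 1) ≃ Fin (m' + 1) :=
    Equiv.ofBijective f (Finite.injective_iff_bijective.1 hinj) with he
  have hev : ∀ t, (e t).val + 1 = r t := hfv
  set w : ℕ → A := fun t => if r t < a then 1 else x ^ a with hw
  rw [← Matrix.det_submatrix_equiv_self e]
  have hmat : (Matrix.of fun i k : Fin (m' + 1) => (if i = k then (1 : A) else 0) -
        c * ((if i.val + 1 < a ∧ k.val = i.val + b then 1 else 0) +
          (if a < i.val + 1 ∧ k.val + a = i.val then x ^ a else 0) -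
          (if k.val + 1 = b then x ^ min (i.val + 1) a else 0))).submatrix e e =
      Matrix.of fun k l : Fin (m' + 1) => (if k = l then 1 else 0) -
      (if l.val = k.val + 1 then (fun t => c * w t) k.val else 0) -
        (if l = 0 then (fun t => - (c * x ^ min (r t) a)) k.val else 0) := by
    ext t u
    rw [Matrix.submatrix_apply, Matrix.of_apply, Matrix.of_apply]
    have ht := t.2
    have hu := u.2
    have h1 : ((e t) = (e u)) ↔ (t = u) := e.injective.eq_iff
    have hbn : b % (m' + 1 + 1) = b := Nat.mod_eq_of_lt (by omega)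
    have h2 : ((e u).val + 1 = b) ↔ (u = 0) := by
      rw [hev]
      constructor
      · intro h
        have h3 : (u.val + 1) * b % (m' + 1 + 1) = 1 * b % (m' + 1 + 1) := by
          rw [one_mul, hbn]
          exact h
        have h4 := mul_mod_inj hn h3
        rw [Nat.mod_eq_of_lt (by omega), Nat.mod_eq_of_lt (by omega)] at h4
        exact Fin.ext (by rw [Fin.val_zero]; omega)
      · rintro rfl
        show (0 + 1) * b % (m' + 1 + 1) = b
        rw [zero_add, one_mul, hbn]
    have h3 := r_eq_iff hn ht hu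
    obtain ⟨s1, s2⟩ := r_succ (t := t.val) hab
    have hru : r u = (u.val + 1) * b % (m' + 1 + 1) := rfl
    have hrt : r t = (t.val + 1) * b % (m' + 1 + 1) := rfl
    have e1 := hev t
    have e2 := hev u
    have hpu := hrpos u hu
    have hpt := hrpos t ht
    rw [← hru] at h3
    rw [← hrt] at s1 s2
    have hA : ((e t).val + 1 < a ∧ (e u).val = (e t).val + b) ↔ (u.val = t.val + 1 ∧ r t < a) := by
      constructor
      · rintro ⟨p1, p2⟩
        have p3 : r t < a := by omega
        obtain ⟨q1, q2⟩ := s1 p3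
        exact ⟨h3.1 (by rw [q1]; omega), p3⟩
      · rintro ⟨p1, p2⟩
        obtain ⟨q1, q2⟩ := s1 p2
        have q3 := h3.2 p1
        exact ⟨by omega, by omega⟩
    have hB : (a < (e t).val + 1 ∧ (e u).val + a = (e t).val) ↔
        (u.val = t.val + 1 ∧ ¬ r t < a) := by
      constructor
      · rintro ⟨p1, p2⟩
        have p3 : a ≤ r t := by omega
        obtain ⟨q1, q2⟩ := s2 p3
        exact ⟨h3.1 (by omega), by omega⟩
      · rintro ⟨p1, p2⟩
        obtain ⟨q1, q2⟩ := s2 (by omega)
        have q3 := h3.2 p1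
        exact ⟨by omega, by omega⟩
    simp only [h1, h2, hA, hB]
    rw [hev]
    have hwt : w t.val = if r t.val < a then 1 else x ^ a := rfl
    simp only [hwt]
    by_cases c1 : u.val = t.val + 1
    · by_cases c2 : r t.val < a
      · have c4 : ¬ (u.val = t.val + 1 ∧ ¬ r t.val < a) := fun h => h.2 c2
        rw [if_pos (And.intro c1 c2), if_neg c4, if_pos c1, if_pos c2]
        split_ifs <;> ring
      · have c4 : ¬ (u.val = t.val + 1 ∧ r t.val < a) := fun h => c2 h.2
        rw [if_neg c4, if_pos (And.intro c1 c2), if_pos c1, if_neg c2]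
        split_ifs <;> ring
    · have c4 : ¬ (u.val = t.val + 1 ∧ r t.val < a) := fun h => c1 h.1
      have c5 : ¬ (u.val = t.val + 1 ∧ ¬ r t.val < a) := fun h => c1 h.1
      rw [if_neg c4, if_neg c5, if_neg c1]
      split_ifs <;> ring
  rw [hmat, det_cyclic m' (fun t => c * w t) (fun t => - (c * x ^ min (r t) a))]
  have hprod : ∀ k, k < m' + 1 → ∏ j ∈ Finset.range k, (c * w j) =
      c ^ k * x ^ (a * ((k + 1) * b / (m' + 1 + 1))) := by
    intro k
    induction k with
    | zero =>
      intro _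
      have : (0 + 1) * b / (m' + 1 + 1) = 0 := Nat.div_eq_of_lt (by omega)
      rw [this, Finset.prod_range_zero, pow_zero, mul_zero, pow_zero, one_mul]
    | succ k ih =>
      intro hk
      rw [Finset.prod_range_succ, ih (by omega)]
      obtain ⟨s1, s2⟩ := r_succ (t := k) hab
      have hk2 : (k + 1 + 1) = k + 2 := rfl
      by_cases c2 : r k < a
      · obtain ⟨q1, q2⟩ := s1 c2
        have hwk : w k = 1 := if_pos c2
        rw [hk2, q2, hwk]
        ring
      · obtain ⟨q1, q2⟩ := s2 (not_lt.1 c2)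
        have hwk : w k = x ^ a := if_neg c2
        rw [hk2, q2, hwk]
        ring
  rw [Finset.sum_range_succ' (fun R => c ^ R * x ^ tau (m' + 1 + 1) a b R)]
  have h0 : c ^ 0 * x ^ tau (m' + 1 + 1) a b 0 = 1 := by
    simp [tau]
  rw [h0, sub_eq_add_neg, ← Finset.sum_neg_distrib, add_comm]
  congr 1
  refine Finset.sum_congr rfl fun k hk => ?_
  rw [Finset.mem_range] at hk
  rw [hprod k hk]
  show - (- (c * x ^ min (r k) a) * (c ^ k * x ^ (a * ((k + 1) * b / (m' + 1 + 1))))) =
    c ^ (k + 1) * x ^ (a * ((k + 1) * b / (m' + 1 + 1)) + min ((k + 1) * b % (m' + 1 + 1)) a)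
  rw [pow_add x]
  show - (- (c * x ^ min (r k) a) * (c ^ k * x ^ (a * ((k + 1) * b / (m' + 1 + 1))))) =
    c ^ (k + 1) * (x ^ (a * ((k + 1) * b / (m' + 1 + 1))) * x ^ min (r k) a)
  ring

end Pool.Agent.Helper71.FT
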