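import Mathlib
import Pool.Agent.Helper71.FT.BurB
import Pool.Agent.Helper71.FT.BurC
import Pool.Agent.Helper62.OB.St.LinAlg

/-!
# FT-D: the Alexander polynomial

`n = m + 1`, `v = (T 0, ..., T m)`.
* `burau_fix`: the units `U` with `U *ᵥ 1 = 1` and `v ᵥ* U = v` form a subgroup which contains the matrices of the generators
  (`burauRn_row`, `burauRn_null` in `OB/St/BurauRn.lean` for the runs, or directly for `bmat`), so `burau m` maps into it
  (e.g. `PresentedGroup.induction_on` / `Subgroup.closure`; see `d2_comm_closure` in `Helper27/TT/D2.lean` for the fact that the `sigma i` generate).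
* `burau_twists`: `burau_pow m (m + 1)` is the case `M = 1`; the matrices `λ 1 + 1 ⊗ g`, `λ + ∑ g = 1`: `(λ 1 + 1 ⊗ g) (μ 1 + 1 ⊗ h) =
  λ μ 1 + 1 ⊗ (μ g + λ h + (∑ g) h)`, and the inverse of `λ 1 + 1 ⊗ g` is `λ⁻¹ 1 - λ⁻¹ 1 ⊗ g`.  Induction on `M` (`Int.induction_on`).
* `alex_formula`: `ψ = N * W`, `N` the matrix of `cross m a b`, `W i j = T (M n) [i = j] + g j`.  As `N *ᵥ 1 = 1`: `1 - ψ + 1 ⊗ g = 1 - T (M n) • N`, so
  `det_rank_one` (`OB/St/LinAlg.lean`, `v i = T i`) gives `det (1 - T (M n) • N) = (1 - T (M n)) (∑ T i) * alexander`; `det_low` and `det_companion`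
  (`x = T 1`, `c = T (M n)`) give `(1 - T (M n)) ∑_R T (M n R + τ_R)`.  Cancel `1 - T (M n) ≠ 0` (`M ≠ 0`; compare `alexkey_T_ne`).
-/

set_option autoImplicit false

namespace Pool.Agent.Helper71.FT

open Polynomial LaurentPolynomial
open Pool.Agent.Helper62.OB

/-- The braids whose Burau matrix fixes the two vectors. -/
private def BurD_H (m : ℕ) : Subgroup (BraidGroup m) where
  carrier := {β | (burau m β : Matrix (Fin (m + 1)) (Fin (m + 1)) ℤ[T;T⁻¹]).mulVec (fun _ => 1) =
        (fun _ => 1) ∧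
      Matrix.vecMul (fun i : Fin (m + 1) => T (i.val : ℤ))
        (burau m β : Matrix (Fin (m + 1)) (Fin (m + 1)) ℤ[T;T⁻¹]) =
        fun i : Fin (m + 1) => T (i.val : ℤ)}
  mul_mem' := by
    rintro a b ⟨ha1, ha2⟩ ⟨hb1, hb2⟩
    refine ⟨?_, ?_⟩
    · rw [map_mul, Units.val_mul, ← Matrix.mulVec_mulVec, hb1, ha1]
    · rw [map_mul, Units.val_mul, ← Matrix.vecMul_vecMul, ha2, hb2]
  one_mem' := by
    refine ⟨?_, ?_⟩
    · rw [map_one, Units.val_one, Matrix.one_mulVec]
    · rw [map_one, Units.val_one, Matrix.vecMul_one]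
  inv_mem' := by
    rintro a ⟨ha1, ha2⟩
    refine ⟨?_, ?_⟩
    · rw [map_inv]
      conv_lhs => rw [← ha1]
      rw [Matrix.mulVec_mulVec, Units.inv_mul, Matrix.one_mulVec]
    · rw [map_inv]
      conv_lhs => rw [← ha2]
      rw [Matrix.vecMul_vecMul, Units.mul_inv, Matrix.vecMul_one]

private lemma BurD_sigma (m : ℕ) (i : Fin m) : sigma i ∈ BurD_H m := by
  have h1 : ∀ r, r ≤ m → rn m 0 r ∈ BurD_H m := fun r hr =>
    ⟨burauRn_row m r hr, burauRn_null m r hr⟩
  have h2 : rn m 0 (i.val + 1) = sg m i.val * rn m 0 i.val := by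
    change sg m (0 + i.val) * rn m 0 i.val = _
    rw [zero_add]
  have h3 : sg m i.val = sigma i := by
    unfold sg
    rw [dif_pos i.isLt]
  have h4 : sigma i = rn m 0 (i.val + 1) * (rn m 0 i.val)⁻¹ := by
    rw [h2, h3, mul_inv_cancel_right]
  rw [h4]
  exact (BurD_H m).mul_mem (h1 _ (by omega)) ((BurD_H m).inv_mem (h1 _ (by omega)))

theorem burau_fix (m : ℕ) (β : BraidGroup m) :
    (burau m β : Matrix (Fin (m + 1)) (Fin (m + 1)) ℤ[T;T⁻¹]).mulVec (fun _ => 1) =
        (fun _ => 1) ∧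
      Matrix.vecMul (fun i : Fin (m + 1) => T (i.val : ℤ))
        (burau m β : Matrix (Fin (m + 1)) (Fin (m + 1)) ℤ[T;T⁻¹]) =
        fun i : Fin (m + 1) => T (i.val : ℤ) :=
  PresentedGroup.generated_by (artinRels m) (BurD_H m) (fun j => BurD_sigma m j) β

private lemma BurD_nat (m k : ℕ) : ∃ g : Fin (m + 1) → ℤ[T;T⁻¹],
    ∑ j, g j = 1 - T ((k : ℤ) * (m + 1)) ∧ ∀ i j : Fin (m + 1),
      (burau m ((rn m 0 m ^ (m + 1)) ^ k) : Matrix (Fin (m + 1)) (Fin (m + 1)) ℤ[T;T⁻¹]) i j =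
        (if i = j then T ((k : ℤ) * (m + 1)) else 0) + g j := by
  obtain ⟨g, hg, h⟩ := burau_pow m ((m + 1) * k)
  have e : (((m + 1) * k : ℕ) : ℤ) = (k : ℤ) * (m + 1) := by push_cast; ring
  rw [e] at hg
  refine ⟨g, hg, fun i j => ?_⟩
  rw [← pow_mul, h i j, e, Nat.add_mul_mod_self_left, Nat.mod_eq_of_lt i.isLt]
  congr 2
  rw [Fin.ext_iff]
  exact propext eq_comm

theorem burau_twists (m : ℕ) (M : ℤ) : ∃ g : Fin (m + 1) → ℤ[T;T⁻¹],
    ∑ j, g j = 1 - T (M * (m + 1)) ∧ ∀ i j : Fin (m + 1),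
      (burau m ((rn m 0 m ^ (m + 1)) ^ M) : Matrix (Fin (m + 1)) (Fin (m + 1)) ℤ[T;T⁻¹]) i j =
        (if i = j then T (M * (m + 1)) else 0) + g j := by
  rcases Int.eq_nat_or_neg M with ⟨k, hk⟩
  obtain ⟨g, hg, h⟩ := BurD_nat m k
  rcases hk with rfl | rfl
  · refine ⟨g, hg, fun i j => ?_⟩
    rw [zpow_natCast]
    exact h i j
  · have hT : (T (-(k : ℤ) * (m + 1)) : ℤ[T;T⁻¹]) * T ((k : ℤ) * (m + 1)) = 1 := by
      rw [← T_add, neg_mul, neg_add_cancel, T_zero]
    refine ⟨fun j => -(T (-(k : ℤ) * (m + 1)) * g j), ?_, fun i j => ?_⟩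
    · rw [Finset.sum_neg_distrib, ← Finset.mul_sum, hg]
      linear_combination hT
    · have key : (burau m ((rn m 0 m ^ (m + 1)) ^ k) :
          Matrix (Fin (m + 1)) (Fin (m + 1)) ℤ[T;T⁻¹]) *
          (Matrix.of fun i j => (if i = j then T (-(k : ℤ) * (m + 1)) else 0) +
            -(T (-(k : ℤ) * (m + 1)) * g j)) = 1 := by
        refine Matrix.ext fun i j => ?_
        rw [Matrix.mul_apply, Matrix.one_apply]
        simp only [h, Matrix.of_apply]
        have e1 : ∀ l : Fin (m + 1), ((if i = l then T ((k : ℤ) * (m + 1)) else 0) + g l) *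
            ((if l = j then T (-(k : ℤ) * (m + 1)) else 0) + -(T (-(k : ℤ) * (m + 1)) * g j)) =
            (if i = l then T ((k : ℤ) * (m + 1)) *
              ((if i = j then T (-(k : ℤ) * (m + 1)) else 0) +
                -(T (-(k : ℤ) * (m + 1)) * g j)) else 0) +
            (if l = j then g j * T (-(k : ℤ) * (m + 1)) else 0) +
            g l * -(T (-(k : ℤ) * (m + 1)) * g j) := by
          intro l
          by_cases h1 : i = l
          · subst h1
            by_cases h2 : i = j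
            · subst h2
              simp only [if_true]
              ring
            · simp only [if_true, if_neg h2]
              ring
          · by_cases h2 : l = j
            · subst h2
              simp only [if_true, if_neg h1]
              ring
            · simp only [if_neg h1, if_neg h2]
              ring
        rw [Finset.sum_congr rfl fun l _ => e1 l, Finset.sum_add_distrib, Finset.sum_add_distrib,
          Finset.sum_ite_eq, Finset.sum_ite_eq', ← Finset.sum_mul, hg]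
        simp only [Finset.mem_univ, if_true]
        by_cases h1 : i = j
        · simp only [if_pos h1]
          linear_combination hT
        · simp only [if_neg h1]
          linear_combination (0 : ℤ[T;T⁻¹]) * hT
      rw [zpow_neg, zpow_natCast, map_inv, Units.inv_eq_of_mul_eq_one_right key]
      rfl

private theorem alex_T_ne (k : ℤ) (hk : k ≠ 0) : (1 - T k : ℤ[T;T⁻¹]) ≠ 0 := by
  intro h
  have h2 : (T 0 : ℤ[T;T⁻¹]) = T k := by
    rw [T_zero]
    exact sub_eq_zero.1 h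
  have h3 := congrArg (fun f : ℤ[T;T⁻¹] => f.coeff 0) h2
  simp at h3
  omega

theorem alex_formula (m a b : ℕ) (ha : 1 ≤ a) (hb : 1 ≤ b) (hab : a + b = m + 1)
    (hc : Nat.Coprime a b) (M : ℤ) (hM : M ≠ 0) :
    (∑ i ∈ Finset.range (m + 1), (T (i : ℤ) : ℤ[T;T⁻¹])) * alexander (ft m a b M) =
      ∑ R ∈ Finset.range (m + 1), T (M * (m + 1) * R + tau (m + 1) a b R) := by
  have hne : M * ((m : ℤ) + 1) ≠ 0 := mul_ne_zero hM (by omega)
  apply mul_left_cancel₀ (alex_T_ne _ hne)
  obtain ⟨g, hg, hW⟩ := burau_twists m M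
  set c : ℤ[T;T⁻¹] := T (M * ((m : ℤ) + 1)) with hcdef
  set N : Matrix (Fin (m + 1)) (Fin (m + 1)) ℤ[T;T⁻¹] :=
    (burau m (cross m a b) : Matrix (Fin (m + 1)) (Fin (m + 1)) ℤ[T;T⁻¹]) with hN
  set ψ : Matrix (Fin (m + 1)) (Fin (m + 1)) ℤ[T;T⁻¹] :=
    (burau m (ft m a b M) : Matrix (Fin (m + 1)) (Fin (m + 1)) ℤ[T;T⁻¹]) with hψ
  have hNrow : ∀ i, ∑ k, N i k = 1 := by
    intro i
    have h1 := congrFun (burau_fix m (cross m a b)).1 i
    rw [Matrix.mulVec, dotProduct] at h1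
    simpa using h1
  have hψe : ∀ i j, ψ i j = c * N i j + g j := by
    intro i j
    have h1 : ψ = N * (burau m ((rn m 0 m ^ (m + 1)) ^ M) :
        Matrix (Fin (m + 1)) (Fin (m + 1)) ℤ[T;T⁻¹]) := by
      rw [hψ, hN, ft, map_mul, Units.val_mul]
    rw [h1, Matrix.mul_apply]
    have h2 : ∀ k, N i k * (burau m ((rn m 0 m ^ (m + 1)) ^ M) :
        Matrix (Fin (m + 1)) (Fin (m + 1)) ℤ[T;T⁻¹]) k j =
        (if k = j then c * N i k else 0) + N i k * g j := by
      intro k
      rw [hW]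
      split_ifs <;> ring
    rw [Finset.sum_congr rfl fun k _ => h2 k, Finset.sum_add_distrib, Finset.sum_ite_eq',
      if_pos (Finset.mem_univ j), ← Finset.sum_mul, hNrow, one_mul]
  have hY : (1 - ψ) + Matrix.of (fun _ j => g j) = 1 - c • N := by
    refine Matrix.ext fun i j => ?_
    rw [Matrix.add_apply, Matrix.sub_apply, Matrix.sub_apply, Matrix.of_apply, hψe,
      Matrix.smul_apply, smul_eq_mul]
    ring
  have hrank := det_rank_one m (1 - ψ) g (fun i : Fin (m + 1) => T (i.val : ℤ)) (by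
      intro i
      have h1 := congrFun (burau_fix m (ft m a b M)).1 i
      rw [Matrix.mulVec, dotProduct] at h1
      simp only [Matrix.sub_apply, Finset.sum_sub_distrib]
      rw [← hψ] at h1
      have h2 : ∑ j, ψ i j = 1 := by simpa using h1
      rw [h2]
      simp [Matrix.one_apply]) (by
      intro j
      have h1 := congrFun (burau_fix m (ft m a b M)).2 j
      rw [Matrix.vecMul, dotProduct] at h1
      simp only [Matrix.sub_apply, mul_sub, Finset.sum_sub_distrib]
      rw [← hψ] at h1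
      rw [h1]
      simp [Matrix.one_apply]) (by simp)
  rw [hY, hg] at hrank
  have hlow := det_low m a b ha hb hab c
  rw [← hN] at hlow
  have hcomp := det_companion m a b ha hb hab hc c (T 1 : ℤ[T;T⁻¹])
  have hTp : ∀ k : ℕ, (T 1 : ℤ[T;T⁻¹]) ^ k = T (k : ℤ) := by
    intro k
    rw [T_pow, mul_one]
  simp only [hTp] at hcomp
  rw [hcomp] at hlow
  rw [hlow] at hrank
  have hsum : (∑ i : Fin (m + 1), (T (i.val : ℤ) : ℤ[T;T⁻¹])) =
      ∑ i ∈ Finset.range (m + 1), T (i : ℤ) :=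
    Fin.sum_univ_eq_sum_range (fun i => (T (i : ℤ) : ℤ[T;T⁻¹])) (m + 1)
  have hal : alexander (ft m a b M) = ((1 - ψ).submatrix Fin.succ Fin.succ).det := by
    rw [alexander, ← hψ]
  rw [hal, ← mul_assoc, ← hsum, ← hrank]
  congr 1
  refine Finset.sum_congr rfl fun R _ => ?_
  rw [hcdef, T_pow, ← T_add]
  congr 1
  ring

end Pool.Agent.Helper71.FT
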