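import Mathlib
import Pool.Agent.Helper71.FT.Defs

/-!
# The identity for the sum of the powers `x^{s_R}`

`n = a + b`, `l b = n q + 1`, `s_R = M n R + τ_R`, `p = M n² + a b`, `κ = M n l + a q`.  The two facts used are
`s_{R+l} = s_R + κ + [R b mod n < a]` and `s_{R+n} = s_R + p`.
-/

set_option autoImplicit false

namespace Pool.Agent.Helper71.FT

open Finset

/-- the numbers -/
structure Dat (n a b l q : ℕ) : Prop where
  hn : a + b = n
  ha : 2 ≤ a
  hb : 2 ≤ b
  hl : l * b = n * q + 1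
  h2 : 2 * l < n

/-- the exponents -/
def sR (n a b : ℕ) (M : ℤ) (R : ℕ) : ℤ := M * n * R + tau n a b R

/-- `[R b mod n < a]` -/
def uu (n a b R : ℕ) : ℤ := if R * b % n < a then 1 else 0

/-- `[1 ≤ R b mod n ≤ a]` -/
def vv (n a b R : ℕ) : ℤ := if 1 ≤ R * b % n ∧ R * b % n ≤ a then 1 else 0

theorem tau_eq {n a b R Q j : ℕ} (h : R * b = n * Q + j) (hj : j < n) :
    tau n a b R = a * Q + min j a := by
  have h1 : R * b / n = Q := by
    rw [h, Nat.mul_add_div (by omega), Nat.div_eq_of_lt hj, add_zero]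
  have h2 : R * b % n = j := by
    rw [h, Nat.mul_add_mod, Nat.mod_eq_of_lt hj]
  unfold tau
  rw [h1, h2]

theorem mod_eq {n b R Q j : ℕ} (h : R * b = n * Q + j) (hj : j < n) : R * b % n = j := by
  rw [h, Nat.mul_add_mod, Nat.mod_eq_of_lt hj]

variable {n a b l q : ℕ}

theorem Dat.npos (D : Dat n a b l q) : 0 < n := by
  have := D.hn
  have := D.ha
  omega

theorem Dat.two_le (D : Dat n a b l q) : 2 ≤ l := by
  have h1 := D.hn
  have h2 := D.ha
  have h3 := D.hb
  have h4 := D.hl
  by_contra hcon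
  have h5 : l = 0 ∨ l = 1 := by omega
  rcases h5 with h5 | h5
  · rw [h5] at h4
    omega
  · rw [h5, one_mul] at h4
    rcases Nat.eq_zero_or_pos q with h6 | h6
    · rw [h6] at h4
      omega
    · have : n * 1 ≤ n * q := Nat.mul_le_mul_left n h6
      omega

theorem Dat.qpos (D : Dat n a b l q) : 1 ≤ q := by
  have h1 := D.two_le
  have h3 := D.hb
  have h4 := D.hl
  by_contra hcon
  have h5 : q = 0 := by omega
  rw [h5] at h4
  have : 2 * 2 ≤ l * b := Nat.mul_le_mul h1 h3
  omega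

theorem Dat.cop (D : Dat n a b l q) : Nat.Coprime n b := by
  have h4 := D.hl
  rw [Nat.coprime_iff_gcd_eq_one]
  have d1 := Nat.gcd_dvd_left n b
  have d2 := Nat.gcd_dvd_right n b
  have d3 : Nat.gcd n b ∣ l * b := d2.mul_left l
  have d4 : Nat.gcd n b ∣ n * q := d1.mul_right q
  rw [h4] at d3
  exact Nat.dvd_one.1 ((Nat.dvd_add_right d4).1 d3)

theorem tau_add_n (D : Dat n a b l q) (R : ℕ) : tau n a b (n + R) = tau n a b R + a * b := by
  have hn := D.npos
  have h1 := Nat.div_add_mod (R * b) n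
  have h2 := Nat.mod_lt (R * b) hn
  rw [tau_eq (Q := R * b / n) (j := R * b % n) h1.symm h2,
    tau_eq (Q := R * b / n + b) (j := R * b % n) (by rw [add_mul, mul_add]; omega) h2]
  ring

theorem mod_add_n (R : ℕ) : (n + R) * b % n = R * b % n := by
  rw [add_mul, Nat.mul_add_mod]

theorem sR_add_n (D : Dat n a b l q) (M : ℤ) (R : ℕ) :
    sR n a b M (n + R) = sR n a b M R + (M * n ^ 2 + a * b) := by
  unfold sR
  rw [tau_add_n D]
  push_cast
  ring

theorem tau_add_l (D : Dat n a b l q) (R : ℕ) :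
    (tau n a b (l + R) : ℤ) = tau n a b R + a * q + uu n a b R := by
  have hn := D.npos
  have hl := D.hl
  have hab := D.hn
  have h1 := Nat.div_add_mod (R * b) n
  have h2 := Nat.mod_lt (R * b) hn
  have hb := D.hb
  unfold uu
  rw [tau_eq (Q := R * b / n) (j := R * b % n) h1.symm h2]
  set Q := R * b / n
  set j := R * b % n
  rcases Nat.lt_or_ge (j + 1) n with h3 | h3
  · rw [tau_eq (Q := Q + q) (j := j + 1) (by rw [add_mul, mul_add, hl]; omega) h3]
    by_cases h4 : j < a
    · rw [if_pos h4, min_eq_left h4.le, min_eq_left (show j + 1 ≤ a by omega)]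
      push_cast
      ring
    · rw [if_neg h4, min_eq_right (show a ≤ j by omega), min_eq_right (show a ≤ j + 1 by omega)]
      push_cast
      ring
  · have h5 : j + 1 = n := by omega
    rw [tau_eq (Q := Q + q + 1) (j := 0) (by rw [add_mul, mul_add, mul_add, hl]; omega) hn,
      if_neg (show ¬ j < a by omega), min_eq_right (show a ≤ j by omega),
      min_eq_left (Nat.zero_le a)]
    push_cast
    ring

theorem sR_add_l (D : Dat n a b l q) (M : ℤ) (R : ℕ) :
    sR n a b M (l + R) = sR n a b M R + (M * n * l + a * q) + uu n a b R := by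
  unfold sR
  rw [tau_add_l D]
  push_cast
  ring

theorem vv_add_l (D : Dat n a b l q) (R : ℕ) : vv n a b (l + R) = uu n a b R := by
  have hn := D.npos
  have hl := D.hl
  have hab := D.hn
  have hb := D.hb
  have h1 := Nat.div_add_mod (R * b) n
  have h2 := Nat.mod_lt (R * b) hn
  unfold vv uu
  set Q := R * b / n
  set j := R * b % n
  rcases Nat.lt_or_ge (j + 1) n with h3 | h3
  · rw [mod_eq (R := l + R) (Q := Q + q) (j := j + 1) (by rw [add_mul, mul_add, hl]; omega) h3]
    by_cases h4 : j < a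
    · rw [if_pos h4, if_pos (by omega)]
    · rw [if_neg h4, if_neg (by omega)]
  · rw [mod_eq (R := l + R) (Q := Q + q + 1) (j := 0)
      (by rw [add_mul, mul_add, mul_add, hl]; omega) hn, if_neg (by omega), if_neg (by omega)]

theorem vv_add_n (R : ℕ) : vv n a b (n + R) = vv n a b R := by
  unfold vv
  rw [mod_add_n]

/-- the reflection `R ↦ l - 1 - R` -/
theorem tau_refl (D : Dat n a b l q) {R : ℕ} (hR : R < l) :
    (tau n a b R : ℤ) + tau n a b (l - 1 - R) = a * q + vv n a b R := by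
  have hn := D.npos
  have hl := D.hl
  have hab := D.hn
  have ha := D.ha
  have hb := D.hb
  have h1 := Nat.div_add_mod (R * b) n
  have h2 := Nat.mod_lt (R * b) hn
  unfold vv
  rw [tau_eq (R := R) (Q := R * b / n) (j := R * b % n) h1.symm h2]
  set Q := R * b / n
  set j := R * b % n
  obtain ⟨S, hS⟩ : ∃ S, l = R + 1 + S := ⟨l - 1 - R, by omega⟩
  have hS' : l - 1 - R = S := by omega
  rw [hS']
  have h3 : n * Q + j + b + S * b = n * q + 1 := by
    rw [← hl, hS]
    nlinarith
  rcases Nat.lt_or_ge (a + 1) j with h4 | h4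
  · -- `j ≥ a + 2`
    obtain ⟨t, ht⟩ : ∃ t, q = Q + 2 + t := by
      refine ⟨q - (Q + 2), ?_⟩
      by_contra hcon
      have h5 : q ≤ Q + 1 := by omega
      have h6 : n * q ≤ n * (Q + 1) := Nat.mul_le_mul_left n h5
      rw [mul_add] at h6
      omega
    rw [ht, mul_add, mul_add] at h3
    rw [tau_eq (R := S) (Q := t) (j := n + a + 1 - j) (by omega) (by omega),
      min_eq_right (show a ≤ j by omega), min_eq_right (show a ≤ n + a + 1 - j by omega),
      if_neg (by omega), ht]
    push_cast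
    ring
  · obtain ⟨t, ht⟩ : ∃ t, q = Q + 1 + t := by
      refine ⟨q - (Q + 1), ?_⟩
      by_contra hcon
      have h5 : q ≤ Q := by omega
      have h6 : n * q ≤ n * Q := Nat.mul_le_mul_left n h5
      omega
    rw [ht, mul_add, mul_add] at h3
    rw [tau_eq (R := S) (Q := t) (j := a + 1 - j) (by omega) (by omega)]
    rcases Nat.eq_zero_or_pos j with h5 | h5
    · rw [h5, min_eq_left (Nat.zero_le a), min_eq_right (show a ≤ a + 1 - 0 by omega),
        if_neg (by omega), ht]
      push_cast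
      ring
    · rcases Nat.lt_or_ge a j with h6 | h6
      · have h7 : j = a + 1 := by omega
        rw [h7, min_eq_right (show a ≤ a + 1 by omega), Nat.sub_self, min_eq_left (Nat.zero_le a),
          if_neg (by omega), ht]
        push_cast
        ring
      · rw [min_eq_left h6, min_eq_left (show a + 1 - j ≤ a by omega), if_pos ⟨h5, h6⟩, ht]
        push_cast [show j ≤ a + 1 by omega]
        ring

theorem sR_refl (D : Dat n a b l q) (M : ℤ) {R : ℕ} (hR : R < l) :
    sR n a b M R + sR n a b M (l - 1 - R) = M * n * (l - 1) + a * q + vv n a b R := by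
  have h := tau_refl D hR
  have h1 : ((l - 1 - R : ℕ) : ℤ) = l - 1 - R := by
    rw [Nat.cast_sub (by omega), Nat.cast_sub (by omega)]
    rfl
  unfold sR
  rw [h1]
  linear_combination h

theorem vv_refl (D : Dat n a b l q) {R : ℕ} (hR : R < l) :
    vv n a b (l - 1 - R) = vv n a b R := by
  have h1 := tau_refl D hR
  have h2 := tau_refl D (R := l - 1 - R) (by omega)
  rw [show l - 1 - (l - 1 - R) = R by omega] at h2
  linarith

theorem uu_zero (D : Dat n a b l q) : uu n a b 0 = 1 ∧ vv n a b 0 = 0 := by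
  have := D.ha
  unfold uu vv
  rw [zero_mul, Nat.zero_mod]
  exact ⟨if_pos (by omega), if_neg (by omega)⟩

theorem mod_last (D : Dat n a b l q) : (n - 1) * b = n * (b - 1) + a := by
  have h1 := D.hn
  have h2 := D.hb
  obtain ⟨b', rfl⟩ : ∃ b', b = b' + 2 := ⟨b - 2, by omega⟩
  subst h1
  rw [show a + (b' + 2) - 1 = a + b' + 1 by omega, show b' + 2 - 1 = b' + 1 by omega]
  ring

theorem uu_last (D : Dat n a b l q) : uu n a b (n - 1) = 0 ∧ vv n a b (n - 1) = 1 := by
  have h1 := D.hn
  have h2 := D.ha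
  have h3 := D.hb
  unfold uu vv
  rw [mod_eq (mod_last D) (by omega)]
  exact ⟨if_neg (lt_irrefl a), if_pos ⟨by omega, le_rfl⟩⟩

theorem uu_mid (D : Dat n a b l q) {R : ℕ} (h0 : R ≠ 0) (h1 : R < n - 1) :
    uu n a b R = vv n a b R := by
  have hn := D.npos
  have hab := D.hn
  have hb := D.hb
  have e1 : R * b % n ≠ 0 := by
    intro h
    have h3 : n ∣ R * b := Nat.dvd_of_mod_eq_zero h
    have h4 : n ∣ R := D.cop.dvd_of_dvd_mul_right h3
    exact absurd (Nat.le_of_dvd (Nat.pos_of_ne_zero h0) h4) (by omega)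
  have e2 : R * b % n ≠ a := by
    intro h
    have h2 := Nat.div_add_mod (R * b) n
    have h3 : n ∣ (R + 1) * b := by
      refine ⟨R * b / n + 1, ?_⟩
      rw [add_mul, mul_add]
      omega
    have h4 : n ∣ R + 1 := D.cop.dvd_of_dvd_mul_right h3
    exact absurd (Nat.le_of_dvd (Nat.succ_pos R) h4) (by omega)
  unfold uu vv
  by_cases h3 : R * b % n < a
  · rw [if_pos h3, if_pos ⟨Nat.pos_of_ne_zero e1, h3.le⟩]
  · rw [if_neg h3, if_neg (by omega)]

theorem sR_zero (M : ℤ) : sR n a b M 0 = 0 := by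
  unfold sR tau
  rw [zero_mul, Nat.zero_div, Nat.zero_mod]
  simp

theorem sR_last (D : Dat n a b l q) (M : ℤ) :
    sR n a b M (n - 1) = M * n ^ 2 + a * b - M * n := by
  have h1 := D.hn
  have h2 := D.hb
  have hn := D.npos
  unfold sR
  rw [tau_eq (mod_last D) (by omega), min_self, Nat.cast_sub (by omega)]
  push_cast [show 1 ≤ b by omega]
  ring

/-- `s_{l-1}` -/
theorem sR_pred (D : Dat n a b l q) (M : ℤ) : sR n a b M (l - 1) = M * n * (l - 1) + a * q := by
  have h := sR_refl D M (R := 0) (by have := D.two_le; omega)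
  rw [sR_zero, (uu_zero D).2, Nat.sub_zero] at h
  linarith

section sums

variable {K : Type*} [Field K]

theorem sum_shift (f : ℕ → K) (n l : ℕ) :
    ∑ R ∈ range n, f (l + R) = ∑ R ∈ range n, f R + ∑ R ∈ range l, (f (n + R) - f R) := by
  have h1 := sum_range_add f l n
  have h2 := sum_range_add f n l
  rw [add_comm l n, h2] at h1
  rw [sum_sub_distrib]
  linear_combination -h1

theorem key (D : Dat n a b l q) (M : ℤ) (y : K) (hy : y ≠ 0) :
    (1 - y ^ (2 * (M * n * l + a * q))) * (1 - y ^ (2 * (M * n * l + a * q + 1))) *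
      ∑ R ∈ range n, y ^ (2 * sR n a b M R) =
    (1 - y ^ (2 * sR n a b M (n - 1))) *
      (y ^ (2 * (M * n * l + a * q + 1)) - y ^ (2 * (M * n * l + a * q))) +
    (1 - y ^ (2 * (M * n ^ 2 + a * b))) * ∑ R ∈ range l,
      (y ^ (2 * sR n a b M R) -
        y ^ (2 * (2 * (M * n * l + a * q) + 1 - M * n) - 2 * sR n a b M R)) := by
  set κ : ℤ := M * n * l + a * q with hκ
  set w : ℕ → K := fun R => y ^ (2 * sR n a b M R) with hw
  have hU : ∀ R, ((uu n a b R : ℤ) : K) = 1 ∧ uu n a b R = 1 ∨ ((uu n a b R : ℤ) : K) = 0 ∧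
      uu n a b R = 0 := by
    intro R
    unfold uu
    by_cases h : R * b % n < a
    · rw [if_pos h]
      exact Or.inl ⟨Int.cast_one, rfl⟩
    · rw [if_neg h]
      exact Or.inr ⟨Int.cast_zero, rfl⟩
  have hV : ∀ R, ((vv n a b R : ℤ) : K) = 1 ∧ vv n a b R = 1 ∨ ((vv n a b R : ℤ) : K) = 0 ∧
      vv n a b R = 0 := by
    intro R
    unfold vv
    by_cases h : 1 ≤ R * b % n ∧ R * b % n ≤ a
    · rw [if_pos h]
      exact Or.inl ⟨Int.cast_one, rfl⟩
    · rw [if_neg h]
      exact Or.inr ⟨Int.cast_zero, rfl⟩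
  have hwn : ∀ R, w (n + R) = w R * y ^ (2 * (M * n ^ 2 + a * b)) := by
    intro R
    simp only [hw]
    rw [sR_add_n D, mul_add, zpow_add₀ hy]
  have hwl1 : ∀ R, uu n a b R = 1 → w (l + R) = w R * y ^ (2 * (κ + 1)) := by
    intro R h
    simp only [hw]
    rw [sR_add_l D, h, ← zpow_add₀ hy]
    congr 1
    ring
  have hwl0 : ∀ R, uu n a b R = 0 → w (l + R) = w R * y ^ (2 * κ) := by
    intro R h
    simp only [hw]
    rw [sR_add_l D, h, ← zpow_add₀ hy]
    congr 1
    ring
  -- the two shifted sums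
  have s1 := sum_shift (fun R => ((vv n a b R : ℤ) : K) * w R) n l
  have s0 := sum_shift (fun R => (1 - ((vv n a b R : ℤ) : K)) * w R) n l
  have t1 : ∑ R ∈ range n, ((vv n a b (l + R) : ℤ) : K) * w (l + R) =
      (∑ R ∈ range n, ((uu n a b R : ℤ) : K) * w R) * y ^ (2 * (κ + 1)) := by
    rw [sum_mul]
    refine sum_congr rfl fun R _ => ?_
    rw [vv_add_l D]
    rcases hU R with ⟨h, h'⟩ | ⟨h, h'⟩
    · rw [h, hwl1 R h']
      ring
    · rw [h]
      ring
  have t0 : ∑ R ∈ range n, (1 - ((vv n a b (l + R) : ℤ) : K)) * w (l + R) =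
      (∑ R ∈ range n, (1 - ((uu n a b R : ℤ) : K)) * w R) * y ^ (2 * κ) := by
    rw [sum_mul]
    refine sum_congr rfl fun R _ => ?_
    rw [vv_add_l D]
    rcases hU R with ⟨h, h'⟩ | ⟨h, h'⟩
    · rw [h]
      ring
    · rw [h, hwl0 R h']
      ring
  set C1 := ∑ R ∈ range l, ((vv n a b R : ℤ) : K) * w R with hC1
  set C0 := ∑ R ∈ range l, (1 - ((vv n a b R : ℤ) : K)) * w R with hC0
  have r1 : ∑ R ∈ range l, (((vv n a b (n + R) : ℤ) : K) * w (n + R) -
      ((vv n a b R : ℤ) : K) * w R) = (y ^ (2 * (M * n ^ 2 + a * b)) - 1) * C1 := by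
    rw [hC1, mul_sum]
    refine sum_congr rfl fun R _ => ?_
    rw [vv_add_n, hwn]
    ring
  have r0 : ∑ R ∈ range l, ((1 - ((vv n a b (n + R) : ℤ) : K)) * w (n + R) -
      (1 - ((vv n a b R : ℤ) : K)) * w R) = (y ^ (2 * (M * n ^ 2 + a * b)) - 1) * C0 := by
    rw [hC0, mul_sum]
    refine sum_congr rfl fun R _ => ?_
    rw [vv_add_n, hwn]
    ring
  rw [t1, r1] at s1
  rw [t0, r0] at s0
  -- the difference of the two indicator functions
  have hd : ∑ R ∈ range n, ((uu n a b R : ℤ) : K) * w R -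
      ∑ R ∈ range n, ((vv n a b R : ℤ) : K) * w R = 1 - w (n - 1) := by
    rw [← sum_sub_distrib]
    have hn1 : n = (n - 2) + 1 + 1 := by
      have := D.hn
      have := D.ha
      omega
    have h1 : ∑ R ∈ range ((n - 2) + 1 + 1), (((uu n a b R : ℤ) : K) * w R -
        ((vv n a b R : ℤ) : K) * w R) = 1 - w (n - 1) := by
      rw [sum_range_succ, sum_range_succ']
      have h2 : ∑ R ∈ range (n - 2), (((uu n a b (R + 1) : ℤ) : K) * w (R + 1) -
          ((vv n a b (R + 1) : ℤ) : K) * w (R + 1)) = 0 := by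
        refine sum_eq_zero fun R hR => ?_
        have := mem_range.1 hR
        rw [uu_mid D (Nat.succ_ne_zero R) (by omega), sub_self]
      have h3 : n - 2 + 1 = n - 1 := by omega
      have h4 : w 0 = 1 := by
        simp only [hw]
        rw [sR_zero, mul_zero, zpow_zero]
      rw [h2, h3, (uu_zero D).1, (uu_zero D).2, (uu_last D).1, (uu_last D).2, h4]
      push_cast
      ring
    rw [← h1, ← hn1]
  -- the sum of the reflected terms
  have hF : ∑ R ∈ range l, y ^ (2 * (2 * κ + 1 - M * n) - 2 * sR n a b M R) =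
      y ^ (2 * κ) * C1 + y ^ (2 * (κ + 1)) * C0 := by
    rw [← sum_range_reflect, hC1, hC0, mul_sum, mul_sum, ← sum_add_distrib]
    refine sum_congr rfl fun R hR => ?_
    have hRl := mem_range.1 hR
    have h1 := sR_refl D M hRl
    have h2 : sR n a b M (l - 1 - R) = M * n * (l - 1) + a * q + vv n a b R - sR n a b M R := by
      linarith
    rw [h2]
    simp only [hw]
    rcases hV R with ⟨h, h'⟩ | ⟨h, h'⟩
    · rw [h, h', sub_self, zero_mul, mul_zero, add_zero, one_mul, ← zpow_add₀ hy]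
      congr 1
      rw [hκ]
      ring
    · rw [h, h', sub_zero, zero_mul, mul_zero, zero_add, one_mul, ← zpow_add₀ hy]
      congr 1
      rw [hκ]
      ring
  have hP : ∑ R ∈ range n, w R = (∑ R ∈ range n, ((uu n a b R : ℤ) : K) * w R) +
      ∑ R ∈ range n, (1 - ((uu n a b R : ℤ) : K)) * w R := by
    rw [← sum_add_distrib]
    exact sum_congr rfl fun R _ => by ring
  have hP' : ∑ R ∈ range n, w R = (∑ R ∈ range n, ((vv n a b R : ℤ) : K) * w R) +
      ∑ R ∈ range n, (1 - ((vv n a b R : ℤ) : K)) * w R := by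
    rw [← sum_add_distrib]
    exact sum_congr rfl fun R _ => by ring
  have hC : ∑ R ∈ range l, w R = C1 + C0 := by
    rw [hC1, hC0, ← sum_add_distrib]
    exact sum_congr rfl fun R _ => by ring
  rw [sum_sub_distrib, hF]
  change (1 - y ^ (2 * κ)) * (1 - y ^ (2 * (κ + 1))) * ∑ R ∈ range n, w R =
    (1 - w (n - 1)) * (y ^ (2 * (κ + 1)) - y ^ (2 * κ)) + (1 - y ^ (2 * (M * n ^ 2 + a * b))) *
      (∑ R ∈ range l, w R - (y ^ (2 * κ) * C1 + y ^ (2 * (κ + 1)) * C0))
  rw [hC]
  rw [hP] at hP'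
  rw [hP]
  generalize (∑ R ∈ range n, ((uu n a b R : ℤ) : K) * w R) = A at *
  generalize (∑ R ∈ range n, (1 - ((uu n a b R : ℤ) : K)) * w R) = B at *
  generalize (∑ R ∈ range n, ((vv n a b R : ℤ) : K) * w R) = A' at *
  generalize (∑ R ∈ range n, (1 - ((vv n a b R : ℤ) : K)) * w R) = B' at *
  generalize y ^ (2 * κ) = c0 at *
  generalize y ^ (2 * (κ + 1)) = c1 at *
  generalize y ^ (2 * (M * n ^ 2 + a * b)) = z at *
  generalize w (n - 1) = wl at *
  have hB : B - B' = -(1 - wl) := by linear_combination hP' - hd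
  linear_combination -(1 - c0) * s1 - (1 - c1) * s0 + (1 - c0) * hd + (1 - c1) * hB

end sums

end Pool.Agent.Helper71.FT
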