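import Mathlib
import Pool.Agent.Helper71.FT.Tri

/-!
# The sizes of the frequencies
-/

set_option autoImplicit false

namespace Pool.Agent.Helper71.FT

open Finset

variable {n a b l q : ℕ}

theorem two_q (D : Dat n a b l q) : 2 * q + 1 ≤ b := by
  have h1 := D.h2
  have h2 := D.hl
  have h3 := D.npos
  by_contra hcon
  have h4 : b ≤ 2 * q := by omega
  have h5 : n * b ≤ n * (2 * q) := Nat.mul_le_mul_left n h4
  have h6 : 2 * l * b ≤ n * b := Nat.mul_le_mul_right b h1.le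
  nlinarith

theorem tau_le (D : Dat n a b l q) {R : ℕ} (hR : R < l) : tau n a b R ≤ a * q := by
  have hq := D.qpos
  have hb := D.hb
  have h1 : R * b < n * q := by
    have h2 : (R + 1) * b ≤ l * b := Nat.mul_le_mul_right b hR
    rw [D.hl, add_mul] at h2
    omega
  have h3 : R * b / n < q := Nat.div_lt_of_lt_mul h1
  unfold tau
  calc a * (R * b / n) + min (R * b % n) a ≤ a * (R * b / n) + a :=
        Nat.add_le_add_left (min_le_right _ _) _
    _ = a * (R * b / n + 1) := by ring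
    _ ≤ a * q := Nat.mul_le_mul_left a h3

theorem le_tau (D : Dat n a b l q) (R : ℕ) : R * (a * b) ≤ n * tau n a b R := by
  have h1 := Nat.div_add_mod (R * b) n
  have h2 := Nat.mod_lt (R * b) D.npos
  have h3 : a * (R * b % n) ≤ n * min (R * b % n) a := by
    rcases Nat.le_total (R * b % n) a with h | h
    · rw [min_eq_left h]
      refine Nat.mul_le_mul_right _ ?_
      have := D.hn
      omega
    · rw [min_eq_right h, mul_comm n a]
      exact Nat.mul_le_mul_left a h2.le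
  unfold tau
  calc R * (a * b) = a * (R * b) := by ring
    _ = a * (n * (R * b / n) + R * b % n) := by rw [h1]
    _ = n * (a * (R * b / n)) + a * (R * b % n) := by ring
    _ ≤ n * (a * (R * b / n)) + n * min (R * b % n) a := Nat.add_le_add_left h3 _
    _ = _ := by ring

theorem tau_le' (D : Dat n a b l q) (R : ℕ) : tau n a b R ≤ R * n := by
  have h1 := Nat.div_add_mod (R * b) n
  have h3 : a * (R * b / n) ≤ n * (R * b / n) := by
    refine Nat.mul_le_mul_right _ ?_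
    have := D.hn
    omega
  have h4 : R * b ≤ R * n := by
    refine Nat.mul_le_mul_left _ ?_
    have := D.hn
    omega
  unfold tau
  have h5 := min_le_left (R * b % n) a
  omega

/-- the facts as statements on integers -/
theorem ints (D : Dat n a b l q) : (2 : ℤ) ≤ a ∧ (2 : ℤ) ≤ b ∧ (a : ℤ) + b = n ∧
    (l : ℤ) * b = n * q + 1 ∧ 2 * (l : ℤ) + 1 ≤ n ∧ (2 : ℤ) ≤ l ∧ (1 : ℤ) ≤ q ∧
    2 * (q : ℤ) + 1 ≤ b := by
  have h1 := D.ha
  have h2 := D.hb
  have h3 := D.hn
  have h4 := D.hl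
  have h5 := D.h2
  have h6 := D.two_le
  have h7 := D.qpos
  have h8 := two_q D
  refine ⟨by exact_mod_cast h1, by exact_mod_cast h2, by exact_mod_cast h3, by exact_mod_cast h4,
    by exact_mod_cast h5, by exact_mod_cast h6, by exact_mod_cast h7, by exact_mod_cast h8⟩

theorem ineq_pos (D : Dat n a b l q) (M : ℤ) (hM : 1 ≤ M) :
    0 < M * n * l + a * q ∧ M * n * l + a * q + 1 < M * n ^ 2 + a * b ∧ 0 < M * n ∧
    M * n < M * n ^ 2 + a * b ∧ ∀ R < l - 1,
      0 < 2 * (M * n * l + a * q) + 1 - M * n - 2 * sR n a b M R ∧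
      2 * (M * n * l + a * q) + 1 - M * n - 2 * sR n a b M R < M * n ^ 2 + a * b := by
  obtain ⟨ha, hb, hn, hl, h2, hl2, hq, hQ⟩ := ints D
  have hn0 : (0 : ℤ) < n := by linarith
  have hMn : 0 < M * n := mul_pos (by linarith) hn0
  have haq : 2 * ((a : ℤ) * q) + a ≤ a * b := by nlinarith
  have haq0 : 0 < (a : ℤ) * q := by positivity
  have hMnl : 2 * (M * n * l) + M * n ≤ M * n ^ 2 := by nlinarith
  refine ⟨by nlinarith, by nlinarith, hMn, by nlinarith, fun R hR => ?_⟩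
  have h3 : (tau n a b R : ℤ) ≤ a * q := by exact_mod_cast tau_le D (show R < l by omega)
  have h4 : (0 : ℤ) ≤ tau n a b R := Int.natCast_nonneg _
  have h5 : (R : ℤ) + 2 ≤ l := by omega
  have h6 : (0 : ℤ) ≤ R := Int.natCast_nonneg _
  have h7 : M * n * (R + 2) ≤ M * n * l := mul_le_mul_of_nonneg_left h5 hMn.le
  have h8 : 0 ≤ M * n * R := mul_nonneg hMn.le h6
  unfold sR
  constructor
  · nlinarith
  · nlinarith

theorem ineq_neg (D : Dat n a b l q) (M : ℤ) (hM : M ≤ -1) :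
    0 < -(M * n * l + a * q + 1) ∧ -(M * n * l + a * q) < -(M * n ^ 2 + a * b) - 1 ∧
    0 < -(M * n) ∧ -(M * n) < -(M * n ^ 2 + a * b) - 1 ∧ ∀ R < l - 1,
      0 < -(2 * (M * n * l + a * q) + 1 - M * n - 2 * sR n a b M R) ∧
      -(2 * (M * n * l + a * q) + 1 - M * n - 2 * sR n a b M R) <
        -(M * n ^ 2 + a * b) - 1 := by
  obtain ⟨ha, hb, hn, hl, h2, hl2, hq, hQ⟩ := ints D
  obtain ⟨μ, rfl⟩ : ∃ μ : ℤ, M = -μ := ⟨-M, by ring⟩
  have hμ : 1 ≤ μ := by linarith
  have hn5 : (5 : ℤ) ≤ n := by linarith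
  have hn0 : (0 : ℤ) < n := by linarith
  have hμn : (n : ℤ) ≤ μ * n := by nlinarith
  have hμn2 : (n : ℤ) ^ 2 ≤ μ * n ^ 2 := by nlinarith
  have h4ab : 4 * ((a : ℤ) * b) ≤ n ^ 2 := by
    rw [← hn]
    nlinarith [sq_nonneg ((a : ℤ) - b)]
  have hab4 : (4 : ℤ) ≤ a * b := by nlinarith
  have haqn : (n : ℤ) * (a * q) = a * b * l - a := by
    have : (a : ℤ) * (n * q) = a * (l * b - 1) := by rw [hl]; ring
    linarith
  have haq0 : 0 < (a : ℤ) * q := by positivity
  have hMnl : 2 * (μ * n * l) + μ * n ≤ μ * n ^ 2 := by nlinarith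
  have hn25 : 5 * (n : ℤ) ≤ n ^ 2 := by nlinarith
  refine ⟨?_, by nlinarith, by nlinarith, by nlinarith, fun R hR => ?_⟩
  · have h3 : 0 < (n : ℤ) * -(-μ * n * l + a * q + 1) := by
      have e1 : (n : ℤ) * -(-μ * n * l + a * q + 1) = μ * n ^ 2 * l - n * (a * q) - n := by ring
      rw [e1, haqn]
      have e2 : (n : ℤ) ^ 2 * l ≤ μ * n ^ 2 * l := mul_le_mul_of_nonneg_right hμn2 (by linarith)
      have e3 : 4 * (a * b) * (l : ℤ) ≤ n ^ 2 * l := mul_le_mul_of_nonneg_right h4ab (by linarith)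
      have e4 : (n : ℤ) ^ 2 * 2 ≤ n ^ 2 * l := mul_le_mul_of_nonneg_left hl2 (by positivity)
      linarith
    exact (mul_pos_iff_of_pos_left hn0).1 h3
  have h3 : (tau n a b R : ℤ) ≤ R * n := by exact_mod_cast tau_le' D R
  have h3' : (R : ℤ) * (a * b) ≤ n * tau n a b R := by exact_mod_cast le_tau D R
  have h5 : (R : ℤ) + 2 ≤ l := by omega
  have h6 : (0 : ℤ) ≤ R := Int.natCast_nonneg _
  have h7 : (R : ℤ) * n ≤ μ * n * R := by nlinarith
  unfold sR
  constructor
  · have h8 : 0 < (n : ℤ) * -(2 * (-μ * n * l + a * q) + 1 - -μ * n -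
        2 * (-μ * n * R + tau n a b R)) := by
      obtain ⟨t, ht⟩ : ∃ t : ℤ, (l : ℤ) = R + t := ⟨l - R, by ring⟩
      have ht2 : 2 ≤ t := by linarith
      have e1 : (n : ℤ) * -(2 * (-μ * n * l + a * q) + 1 - -μ * n -
          2 * (-μ * n * R + tau n a b R)) =
          μ * n ^ 2 * (2 * t - 1) - n - 2 * (n * (a * q)) + 2 * (n * tau n a b R) := by
        rw [ht]
        ring
      rw [e1, haqn, ht]
      have e2 : (n : ℤ) ^ 2 * (2 * t - 1) ≤ μ * n ^ 2 * (2 * t - 1) :=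
        mul_le_mul_of_nonneg_right hμn2 (by linarith)
      have e3 : 4 * (a * b) * t ≤ (n : ℤ) ^ 2 * t := mul_le_mul_of_nonneg_right h4ab (by linarith)
      have e4 : (n : ℤ) ^ 2 * 2 ≤ n ^ 2 * t := mul_le_mul_of_nonneg_left ht2 (by positivity)
      have e5 : (R : ℤ) * (a * b) ≤ n * tau n a b R := h3'
      have e6 : (a : ℤ) * b * (R + t) = R * (a * b) + a * b * t := by ring
      rw [e6]
      linarith
    exact (mul_pos_iff_of_pos_left hn0).1 h8
  · have h8 : 0 < (n : ℤ) * (μ * n * (n - 2 * l + 1) + 2 * (a * q) - a * b) := by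
      have e1 : (n : ℤ) * (μ * n * (n - 2 * l + 1) + 2 * (a * q) - a * b) =
          μ * n ^ 2 * (n - 2 * l + 1) + 2 * (n * (a * q)) - n * (a * b) := by ring
      rw [e1, haqn]
      have e2 : (n : ℤ) ^ 2 * (n - 2 * l + 1) ≤ μ * n ^ 2 * (n - 2 * l + 1) :=
        mul_le_mul_of_nonneg_right hμn2 (by linarith)
      have e3 : 4 * (a * b) * (n - 2 * l) ≤ (n : ℤ) ^ 2 * (n - 2 * l) :=
        mul_le_mul_of_nonneg_right h4ab (by linarith)
      have e4 : 0 ≤ (a * b : ℤ) * (n - 2 * l) := mul_nonneg (by linarith) (by linarith)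
      nlinarith
    have h9 := (mul_pos_iff_of_pos_left hn0).1 h8
    have h10 : μ * n * (n - 2 * l + 1) = μ * n ^ 2 - 2 * (μ * n * l) + μ * n := by ring
    have h11 : -(2 * (-μ * n * l + a * q) + 1 - -μ * n - 2 * (-μ * n * R + tau n a b R)) =
        2 * (μ * n * l) - 2 * (a * q) - 1 - μ * n - 2 * (μ * n * R) + 2 * (tau n a b R : ℤ) := by
      ring
    have h12 : -(-μ * n ^ 2 + a * b) - 1 = μ * (n : ℤ) ^ 2 - a * b - 1 := by ring
    rw [h10] at h9
    rw [h11, h12]
    linarith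

end Pool.Agent.Helper71.FT
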