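import Mathlib
import Pool.Agent.Helper71.FT.Tri

/-!
# The real function and its signs

`ff φ = sin (p φ) ∑_{R < l - 1} sin ((2 κ + 1 - M n - 2 s_R) φ) + sin ((p + 1) φ) sin (M n φ)`.
-/

set_option autoImplicit false

namespace Pool.Agent.Helper71.FT

open Finset

variable {n a b l q : ℕ}

/-- the real function -/
noncomputable def ff (n a b l q : ℕ) (M : ℤ) (φ : ℝ) : ℝ :=
  Real.sin (((M * n ^ 2 + a * b : ℤ) : ℝ) * φ) * (∑ R ∈ range (l - 1),
    Real.sin (((2 * (M * n * l + a * q) + 1 - M * n - 2 * sR n a b M R : ℤ) : ℝ) * φ)) +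
  Real.sin (((M * n ^ 2 + a * b + 1 : ℤ) : ℝ) * φ) * Real.sin (((M * n : ℤ) : ℝ) * φ)

theorem ff_continuous (n a b l q : ℕ) (M : ℤ) : Continuous (ff n a b l q M) := by
  unfold ff
  fun_prop

theorem y_sub (φ : ℝ) (k : ℤ) : Complex.exp (φ * Complex.I) ^ k -
    Complex.exp (φ * Complex.I) ^ (-k) = 2 * Complex.I * ((Real.sin ((k : ℝ) * φ) : ℝ) : ℂ) := by
  rw [← Complex.exp_int_mul, ← Complex.exp_int_mul]
  have e1 : (k : ℂ) * ((φ : ℂ) * Complex.I) = (((k : ℝ) * φ : ℝ) : ℂ) * Complex.I := by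
    push_cast
    ring
  have e2 : ((-k : ℤ) : ℂ) * ((φ : ℂ) * Complex.I) = -((((k : ℝ) * φ : ℝ) : ℂ)) * Complex.I := by
    push_cast
    ring
  rw [e1, e2, Complex.exp_mul_I, Complex.exp_mul_I, Complex.cos_neg, Complex.sin_neg,
    Complex.ofReal_sin]
  ring

theorem key_trig (D : Dat n a b l q) (M : ℤ) (φ : ℝ) :
    (((Real.sin (((M * n * l + a * q : ℤ) : ℝ) * φ) *
      Real.sin (((M * n * l + a * q + 1 : ℤ) : ℝ) * φ) : ℝ)) : ℂ) *
      (Complex.exp (φ * Complex.I) ^ (-sR n a b M (n - 1)) *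
        ∑ R ∈ range n, Complex.exp (φ * Complex.I) ^ (2 * sR n a b M R)) =
      ((ff n a b l q M φ : ℝ) : ℂ) := by
  set y := Complex.exp (φ * Complex.I) with hy
  have hy0 : y ≠ 0 := Complex.exp_ne_zero _
  have hk := key D M y hy0
  set κ : ℤ := M * n * l + a * q with hκ
  set p : ℤ := M * n ^ 2 + a * b with hp
  set s : ℤ := sR n a b M (n - 1) with hs
  have hsp : s = p - M * n := sR_last D M
  set P := ∑ R ∈ range n, y ^ (2 * sR n a b M R) with hP
  have hS : ∀ k : ℤ, y ^ k - y ^ (-k) = 2 * Complex.I * ((Real.sin ((k : ℝ) * φ) : ℝ) : ℂ) :=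
    fun k => y_sub φ k
  have h1 : ∀ k : ℤ, 1 - y ^ (2 * k) = -(y ^ k * (y ^ k - y ^ (-k))) := by
    intro k
    rw [mul_sub, ← zpow_add₀ hy0, ← zpow_add₀ hy0, show k + k = 2 * k by ring,
      show k + -k = 0 by ring, zpow_zero]
    ring
  have h2 : y ^ (2 * (κ + 1)) - y ^ (2 * κ) = y ^ (2 * κ + 1) * (y ^ (1 : ℤ) - y ^ (-1 : ℤ)) := by
    rw [mul_sub, ← zpow_add₀ hy0, ← zpow_add₀ hy0]
    congr 2 <;> ring
  have h3 : ∀ R, y ^ (2 * sR n a b M R) - y ^ (2 * (2 * κ + 1 - M * n) - 2 * sR n a b M R) =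
      -(y ^ (2 * κ + 1 - M * n) * (2 * Complex.I *
        ((Real.sin (((2 * κ + 1 - M * n - 2 * sR n a b M R : ℤ) : ℝ) * φ) : ℝ) : ℂ))) := by
    intro R
    have e1 : y ^ (2 * κ + 1 - M * n) * y ^ (2 * κ + 1 - M * n - 2 * sR n a b M R) =
        y ^ (2 * (2 * κ + 1 - M * n) - 2 * sR n a b M R) := by
      rw [← zpow_add₀ hy0]
      congr 1
      ring
    have e2 : y ^ (2 * κ + 1 - M * n) * y ^ (-(2 * κ + 1 - M * n - 2 * sR n a b M R)) =
        y ^ (2 * sR n a b M R) := by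
      rw [← zpow_add₀ hy0]
      congr 1
      ring
    rw [← hS, ← e1, ← e2]
    ring
  have h4 : ∑ R ∈ range l, (y ^ (2 * sR n a b M R) -
      y ^ (2 * (2 * κ + 1 - M * n) - 2 * sR n a b M R)) =
      -(y ^ (2 * κ + 1 - M * n) * (2 * Complex.I *
        ((∑ R ∈ range l, Real.sin (((2 * κ + 1 - M * n - 2 * sR n a b M R : ℤ) : ℝ) * φ) : ℝ) :
          ℂ))) := by
    rw [sum_congr rfl fun R _ => h3 R, Complex.ofReal_sum, sum_neg_distrib, mul_sum, mul_sum]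
  rw [h1 κ, h1 (κ + 1), h1 s, h1 p, h2, h4, hS, hS, hS, hS, hS] at hk
  -- the real sum
  have h5 : ∑ R ∈ range l, Real.sin (((2 * κ + 1 - M * n - 2 * sR n a b M R : ℤ) : ℝ) * φ) =
      ∑ R ∈ range (l - 1), Real.sin (((2 * κ + 1 - M * n - 2 * sR n a b M R : ℤ) : ℝ) * φ) +
        Real.sin (((M * n + 1 : ℤ) : ℝ) * φ) := by
    have hl : l = l - 1 + 1 := by
      have := D.two_le
      omega
    conv_lhs => rw [hl]
    rw [sum_range_succ, sR_pred D]
    congr 4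
    rw [hκ]
    ring
  have h6 : ff n a b l q M φ = Real.sin ((p : ℝ) * φ) *
      (∑ R ∈ range l, Real.sin (((2 * κ + 1 - M * n - 2 * sR n a b M R : ℤ) : ℝ) * φ)) -
      Real.sin ((s : ℝ) * φ) * Real.sin (((1 : ℤ) : ℝ) * φ) := by
    rw [h5]
    unfold ff
    rw [← hκ, ← hp]
    have e1 : ((M * n + 1 : ℤ) : ℝ) * φ = ((M * n : ℤ) : ℝ) * φ + φ := by
      push_cast
      ring
    have e2 : ((p + 1 : ℤ) : ℝ) * φ = (p : ℝ) * φ + φ := by
      push_cast
      ring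
    have e3 : (s : ℝ) * φ = (p : ℝ) * φ - ((M * n : ℤ) : ℝ) * φ := by
      rw [hsp]
      push_cast
      ring
    have e4 : ((1 : ℤ) : ℝ) * φ = φ := by
      push_cast
      ring
    rw [e1, e2, e3, e4, Real.sin_add, Real.sin_add, Real.sin_sub]
    ring
  rw [h6]
  generalize (∑ R ∈ range l, Real.sin (((2 * κ + 1 - M * n - 2 * sR n a b M R : ℤ) : ℝ) * φ)) =
    Z at hk ⊢
  -- the powers of `y`
  have h7 : y ^ κ * y ^ (κ + 1) = y ^ (2 * κ + 1) := by
    rw [← zpow_add₀ hy0]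
    congr 1
    ring
  have h8 : y ^ p * y ^ (2 * κ + 1 - M * n) = y ^ s * y ^ (2 * κ + 1) := by
    rw [← zpow_add₀ hy0, ← zpow_add₀ hy0, hsp]
    congr 1
    ring
  have h9 : y ^ s * y ^ (-s) = 1 := by
    rw [← zpow_add₀ hy0, add_neg_cancel, zpow_zero]
  have h10 : y ^ (2 * κ + 1) ≠ 0 := zpow_ne_zero _ hy0
  have hI : Complex.I * Complex.I = -1 := Complex.I_mul_I
  push_cast at hk ⊢
  generalize y ^ κ = Y1 at *
  generalize y ^ (κ + 1) = Y2 at *
  generalize y ^ (2 * κ + 1) = Y at *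
  generalize y ^ p = Y3 at *
  generalize y ^ (2 * κ + 1 - M * n) = Y4 at *
  generalize y ^ s = Ys at *
  generalize y ^ (-s) = Yt at *
  generalize Complex.sin ((κ : ℂ) * φ) = S1 at *
  generalize Complex.sin (((κ : ℂ) + 1) * φ) = S2 at *
  generalize Complex.sin ((p : ℂ) * φ) = S3 at *
  generalize Complex.sin ((s : ℂ) * φ) = S4 at *
  generalize Complex.sin ((1 : ℂ) * φ) = S5 at *
  have h11 : Y * (S1 * S2 * P) = Y * Ys * (S3 * Z - S4 * S5) := by
    have e1 : 4 * (Y * (S1 * S2 * P)) * (Complex.I * Complex.I) =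
        4 * (Y * Ys * (S3 * Z - S4 * S5)) * (Complex.I * Complex.I) := by
      linear_combination hk - 4 * (Complex.I * Complex.I) * S1 * S2 * P * h7 +
        4 * (Complex.I * Complex.I) * S3 * Z * h8
    rw [hI] at e1
    linear_combination -(1 / 4) * e1
  have h12 : S1 * S2 * P = Ys * (S3 * Z - S4 * S5) := by
    apply mul_left_cancel₀ h10
    rw [h11]
    ring
  linear_combination Yt * h12 + (S3 * Z - S4 * S5) * h9

end Pool.Agent.Helper71.FT
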