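import Mathlib
import Pool.Agent.Helper71.FT.Sig
import Pool.Agent.Helper71.FT.Ineq
import Pool.Agent.Helper27.TT.C4
import Pool.Agent.Helper62.OB.Poly

/-!
# The first zero is not a root of unity of a cyclotomic factor
-/

set_option autoImplicit false

namespace Pool.Agent.Helper71.FT

open Finset Polynomial LaurentPolynomial
open Pool.Agent.Helper62.OB Pool.Agent.Helper27.TT

variable {n a b l q : ℕ}

theorem sin_pos_k {k : ℤ} {L φ : ℝ} (h0 : 0 < φ) (hL : φ * L ≤ Real.pi) (hk : 0 < k)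
    (hkL : (k : ℝ) < L) : 0 < Real.sin ((k : ℝ) * φ) := by
  have hk' : (0 : ℝ) < k := by exact_mod_cast hk
  apply Real.sin_pos_of_pos_of_lt_pi (by positivity)
  nlinarith

theorem sin_neg_k {k : ℤ} {L φ : ℝ} (h0 : 0 < φ) (hL : φ * L ≤ Real.pi) (hk : 0 < -k)
    (hkL : ((-k : ℤ) : ℝ) < L) : Real.sin ((k : ℝ) * φ) < 0 := by
  have h := sin_pos_k h0 hL hk hkL
  push_cast at h
  rw [neg_mul, Real.sin_neg] at h
  linarith

theorem sin_past {L : ℤ} (hL : 2 ≤ L) :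
    Real.sin (((L + 1 : ℤ) : ℝ) * (Real.pi / (L : ℝ))) < 0 := by
  have hL' : (2 : ℝ) ≤ L := by exact_mod_cast hL
  have hL0 : (L : ℝ) ≠ 0 := by positivity
  have e : ((L + 1 : ℤ) : ℝ) * (Real.pi / (L : ℝ)) = Real.pi / (L : ℝ) + Real.pi := by
    push_cast
    field_simp
    ring
  rw [e, Real.sin_add_pi]
  have h1 : 0 < Real.pi / (L : ℝ) := div_pos Real.pi_pos (by linarith)
  have h2 : Real.pi / (L : ℝ) < Real.pi := by
    rw [div_lt_iff₀ (by linarith)]
    nlinarith [Real.pi_pos]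
  have := Real.sin_pos_of_pos_of_lt_pi h1 h2
  linarith

theorem signs_pos (D : Dat n a b l q) (M : ℤ) (hM : 1 ≤ M) :
    (∀ φ : ℝ, 0 < φ → φ * ((M * n ^ 2 + a * b : ℤ) : ℝ) ≤ Real.pi →
      Real.sin (((M * n * l + a * q : ℤ) : ℝ) * φ) *
        Real.sin (((M * n * l + a * q + 1 : ℤ) : ℝ) * φ) ≠ 0) ∧
    (∀ φ : ℝ, 0 < φ → φ * ((M * n ^ 2 + a * b + 1 : ℤ) : ℝ) ≤ Real.pi →
      0 < ff n a b l q M φ) ∧
    ff n a b l q M (Real.pi / ((M * n ^ 2 + a * b : ℤ) : ℝ)) < 0 := by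
  obtain ⟨i1, i2, i3, i4, i5⟩ := ineq_pos D M hM
  set κ : ℤ := M * n * l + a * q with hκ
  set p : ℤ := M * n ^ 2 + a * b with hp
  have hp0 : 0 < p := by linarith
  have hp2 : 2 ≤ p := by linarith
  have hpR : (0 : ℝ) < p := by exact_mod_cast hp0
  have hlt : ((p : ℤ) : ℝ) < ((p + 1 : ℤ) : ℝ) := by
    push_cast
    linarith
  refine ⟨fun φ h0 h1 => ?_, fun φ h0 h1 => ?_, ?_⟩
  · have e1 : (κ : ℝ) < (p : ℝ) := by
      exact_mod_cast (show κ < p by linarith)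
    have e2 : ((κ + 1 : ℤ) : ℝ) < (p : ℝ) := by exact_mod_cast i2
    exact (mul_pos (sin_pos_k h0 h1 i1 e1) (sin_pos_k h0 h1 (by linarith) e2)).ne'
  · unfold ff
    have h2 : 0 < Real.sin ((p : ℝ) * φ) := sin_pos_k h0 h1 hp0 hlt
    have h3 : 0 < ∑ R ∈ range (l - 1),
        Real.sin (((2 * κ + 1 - M * n - 2 * sR n a b M R : ℤ) : ℝ) * φ) := by
      refine sum_pos (fun R hR => ?_) ⟨0, mem_range.2 (by have := D.two_le; omega)⟩
      obtain ⟨j1, j2⟩ := i5 R (mem_range.1 hR)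
      refine sin_pos_k h0 h1 j1 ?_
      exact_mod_cast (show 2 * κ + 1 - M * n - 2 * sR n a b M R < p + 1 by linarith)
    have h4 : 0 ≤ Real.sin (((p + 1 : ℤ) : ℝ) * φ) := by
      apply Real.sin_nonneg_of_nonneg_of_le_pi
      · have : (0 : ℝ) < ((p + 1 : ℤ) : ℝ) := by linarith
        positivity
      · linarith
    have h5 : 0 < Real.sin (((M * n : ℤ) : ℝ) * φ) := by
      refine sin_pos_k h0 h1 i3 ?_
      exact_mod_cast (show M * n < p + 1 by linarith)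
    rw [← hκ, ← hp]
    have := mul_pos h2 h3
    have := mul_nonneg h4 h5.le
    linarith
  · unfold ff
    rw [← hκ, ← hp]
    have e0 : Real.sin ((p : ℝ) * (Real.pi / (p : ℝ))) = 0 := by
      rw [mul_div_cancel₀ _ hpR.ne', Real.sin_pi]
    have h2 := sin_past hp2
    have h3 : 0 < Real.sin (((M * n : ℤ) : ℝ) * (Real.pi / (p : ℝ))) := by
      refine sin_pos_k (L := p) (div_pos Real.pi_pos hpR) ?_ i3 (by exact_mod_cast i4)
      rw [div_mul_cancel₀ _ hpR.ne']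
    rw [e0, zero_mul, zero_add]
    exact mul_neg_of_neg_of_pos h2 h3

theorem signs_neg (D : Dat n a b l q) (M : ℤ) (hM : M ≤ -1) :
    (∀ φ : ℝ, 0 < φ → φ * ((-(M * n ^ 2 + a * b) - 1 : ℤ) : ℝ) ≤ Real.pi →
      Real.sin (((M * n * l + a * q : ℤ) : ℝ) * φ) *
        Real.sin (((M * n * l + a * q + 1 : ℤ) : ℝ) * φ) ≠ 0) ∧
    (∀ φ : ℝ, 0 < φ → φ * ((-(M * n ^ 2 + a * b) - 1 + 1 : ℤ) : ℝ) ≤ Real.pi →
      0 < ff n a b l q M φ) ∧
    ff n a b l q M (Real.pi / ((-(M * n ^ 2 + a * b) - 1 : ℤ) : ℝ)) < 0 := by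
  obtain ⟨i1, i2, i3, i4, i5⟩ := ineq_neg D M hM
  set κ : ℤ := M * n * l + a * q with hκ
  set p : ℤ := M * n ^ 2 + a * b with hp
  set L : ℤ := -p - 1 with hL
  have hL0 : 0 < L := by linarith
  have hL2 : 2 ≤ L := by linarith
  have hLR : (0 : ℝ) < L := by exact_mod_cast hL0
  have hlt : ((L : ℤ) : ℝ) < ((L + 1 : ℤ) : ℝ) := by
    push_cast
    linarith
  refine ⟨fun φ h0 h1 => ?_, fun φ h0 h1 => ?_, ?_⟩
  · have e1 : ((-κ : ℤ) : ℝ) < (L : ℝ) := by exact_mod_cast i2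
    have e2 : ((-(κ + 1) : ℤ) : ℝ) < (L : ℝ) := by
      exact_mod_cast (show -(κ + 1) < L by linarith)
    exact (mul_pos_of_neg_of_neg (sin_neg_k h0 h1 (by linarith) e1) (sin_neg_k h0 h1 i1 e2)).ne'
  · unfold ff
    have h2 : Real.sin ((p : ℝ) * φ) ≤ 0 := by
      have e1 : (p : ℝ) * φ = -(φ * ((L + 1 : ℤ) : ℝ)) := by
        rw [hL]
        push_cast
        ring
      rw [e1, Real.sin_neg]
      have : 0 ≤ Real.sin (φ * ((L + 1 : ℤ) : ℝ)) := by
        apply Real.sin_nonneg_of_nonneg_of_le_pi _ h1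
        have : (0 : ℝ) < ((L + 1 : ℤ) : ℝ) := by linarith
        positivity
      linarith
    have h3 : ∑ R ∈ range (l - 1),
        Real.sin (((2 * κ + 1 - M * n - 2 * sR n a b M R : ℤ) : ℝ) * φ) ≤ 0 := by
      refine sum_nonpos fun R hR => ?_
      obtain ⟨j1, j2⟩ := i5 R (mem_range.1 hR)
      refine (sin_neg_k h0 h1 j1 ?_).le
      exact_mod_cast (show -(2 * κ + 1 - M * n - 2 * sR n a b M R) < L + 1 by linarith)
    have h4 : Real.sin (((p + 1 : ℤ) : ℝ) * φ) < 0 := by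
      refine sin_neg_k h0 h1 (by linarith) ?_
      exact_mod_cast (show -(p + 1) < L + 1 by linarith)
    have h5 : Real.sin (((M * n : ℤ) : ℝ) * φ) < 0 := by
      refine sin_neg_k h0 h1 i3 ?_
      exact_mod_cast (show -(M * n) < L + 1 by linarith)
    rw [← hκ, ← hp]
    have := mul_nonneg_of_nonpos_of_nonpos h2 h3
    have := mul_pos_of_neg_of_neg h4 h5
    linarith
  · unfold ff
    rw [← hκ, ← hp]
    have hφ : 0 < Real.pi / (L : ℝ) := div_pos Real.pi_pos hLR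
    have e0 : Real.sin (((p + 1 : ℤ) : ℝ) * (Real.pi / (L : ℝ))) = 0 := by
      have e1 : ((p + 1 : ℤ) : ℝ) * (Real.pi / (L : ℝ)) = -Real.pi := by
        have e2 : ((p + 1 : ℤ) : ℝ) = -(L : ℝ) := by
          rw [hL]
          push_cast
          ring
        rw [e2, neg_mul, mul_div_cancel₀ _ hLR.ne']
      rw [e1, Real.sin_neg, Real.sin_pi, neg_zero]
    have h2 : 0 < Real.sin ((p : ℝ) * (Real.pi / (L : ℝ))) := by
      have e1 : (p : ℝ) * (Real.pi / (L : ℝ)) =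
          -(((L + 1 : ℤ) : ℝ) * (Real.pi / (L : ℝ))) := by
        have e2 : (p : ℝ) = -((L + 1 : ℤ) : ℝ) := by
          rw [hL]
          push_cast
          ring
        rw [e2]
        ring
      rw [e1, Real.sin_neg]
      have := sin_past hL2
      linarith
    have h3 : ∑ R ∈ range (l - 1), Real.sin (((2 * κ + 1 - M * n - 2 * sR n a b M R : ℤ) : ℝ) *
        (Real.pi / (L : ℝ))) < 0 := by
      refine sum_neg (fun R hR => ?_) ⟨0, mem_range.2 (by have := D.two_le; omega)⟩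
      obtain ⟨j1, j2⟩ := i5 R (mem_range.1 hR)
      refine sin_neg_k (L := L) hφ ?_ j1 (by exact_mod_cast j2)
      rw [div_mul_cancel₀ _ hLR.ne']
    rw [e0, zero_mul, add_zero]
    exact mul_neg_of_pos_of_neg h2 h3

theorem signs (D : Dat n a b l q) (M : ℤ) (hM : M ≠ 0) : ∃ L : ℕ, 2 ≤ L ∧
    (∀ φ : ℝ, 0 < φ → φ ≤ Real.pi / (L : ℝ) →
      Real.sin (((M * n * l + a * q : ℤ) : ℝ) * φ) *
        Real.sin (((M * n * l + a * q + 1 : ℤ) : ℝ) * φ) ≠ 0) ∧
    (∀ φ : ℝ, 0 < φ → φ ≤ Real.pi / ((L : ℝ) + 1) → 0 < ff n a b l q M φ) ∧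
    ff n a b l q M (Real.pi / (L : ℝ)) < 0 := by
  obtain ⟨L, hL, h1, h2, h3⟩ : ∃ L : ℤ, 2 ≤ L ∧
      (∀ φ : ℝ, 0 < φ → φ * (L : ℝ) ≤ Real.pi →
        Real.sin (((M * n * l + a * q : ℤ) : ℝ) * φ) *
          Real.sin (((M * n * l + a * q + 1 : ℤ) : ℝ) * φ) ≠ 0) ∧
      (∀ φ : ℝ, 0 < φ → φ * ((L + 1 : ℤ) : ℝ) ≤ Real.pi → 0 < ff n a b l q M φ) ∧
      ff n a b l q M (Real.pi / (L : ℝ)) < 0 := by
    rcases lt_or_gt_of_ne hM with h | h
    · obtain ⟨h1, h2, h3⟩ := signs_neg D M (by omega)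
      obtain ⟨i1, i2, i3, i4, i5⟩ := ineq_neg D M (by omega)
      exact ⟨_, by linarith, h1, h2, h3⟩
    · obtain ⟨h1, h2, h3⟩ := signs_pos D M (by omega)
      obtain ⟨i1, i2, i3, i4, i5⟩ := ineq_pos D M (by omega)
      exact ⟨_, by linarith, h1, h2, h3⟩
  obtain ⟨K, rfl⟩ := Int.eq_ofNat_of_zero_le (show 0 ≤ L by linarith)
  have hK : 2 ≤ K := by exact_mod_cast hL
  have hKR : (0 : ℝ) < K := by exact_mod_cast (show 0 < K by omega)
  refine ⟨K, hK, fun φ p0 p1 => h1 φ p0 ?_, fun φ p0 p1 => h2 φ p0 ?_, ?_⟩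
  · rw [le_div_iff₀ hKR] at p1
    exact_mod_cast p1
  · rw [le_div_iff₀ (by linarith)] at p1
    exact_mod_cast p1
  · exact_mod_cast h3

theorem no_cyc (D : Dat n a b l q) (M : ℤ) (hM : M ≠ 0) (Mu : Multiset ℕ)
    (hMu : ∀ N ∈ Mu, 0 < N)
    (h : ∀ φ : ℝ, ∃ c : ℂ, c ≠ 0 ∧ cyP Mu φ =
      c * ∑ R ∈ range n, Complex.exp (φ * Complex.I) ^ (2 * sR n a b M R)) : False := by
  obtain ⟨L, hL, s1, s2, s3⟩ := signs D M hM
  have hLR : (2 : ℝ) ≤ L := by exact_mod_cast hL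
  have hpi := Real.pi_pos
  obtain ⟨N, hN, e1, e2, e3, -⟩ := engine Mu hMu (ff n a b l q M) (ff_continuous n a b l q M)
    (Real.pi / ((L : ℝ) + 1)) (Real.pi / (L : ℝ)) (by positivity)
    (div_lt_div_of_pos_left hpi (by linarith) (by linarith))
    (by
      rw [div_lt_iff₀ (by linarith)]
      nlinarith)
    (by
      intro φ p0
      obtain ⟨c, hc, p1⟩ := h φ
      rw [p0] at p1
      have p2 := (mul_eq_zero.1 p1.symm).resolve_left hc
      have p3 := key_trig D M φ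
      rw [p2, mul_zero, mul_zero] at p3
      exact (Complex.ofReal_eq_zero.1 p3.symm))
    (by
      intro φ p0 p1 p2
      obtain ⟨c, hc, p4⟩ := h φ
      have p3 := key_trig D M φ
      rw [p2, Complex.ofReal_zero] at p3
      have p5 := (mul_eq_zero.1 p3).resolve_left
        (fun h0 => s1 φ p0 p1 (Complex.ofReal_eq_zero.1 h0))
      have p6 := (mul_eq_zero.1 p5).resolve_left (zpow_ne_zero _ (Complex.exp_ne_zero _))
      rw [p4, p6, mul_zero])
    s2 s3.le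
  have hNR : (0 : ℝ) < N := by exact_mod_cast hN
  have f1 : (N : ℝ) < L + 1 := by
    by_contra hcon
    push Not at hcon
    have := div_le_div_of_nonneg_left hpi.le (by linarith : (0 : ℝ) < (L : ℝ) + 1) hcon
    linarith
  have f2 : (L : ℝ) ≤ N := by
    by_contra hcon
    push Not at hcon
    have := div_lt_div_of_pos_left hpi hNR hcon
    linarith
  have f3 : N = L := by
    have g1 : N < L + 1 := by exact_mod_cast f1
    have g2 : L ≤ N := by exact_mod_cast f2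
    omega
  rw [f3] at e3
  linarith

/-- the value of the product of cyclotomic polynomials -/
theorem cyP_of (m : ℕ) (Δ : ℤ[T;T⁻¹]) (s : ℕ → ℤ)
    (h : (∑ i ∈ range (m + 1), (T (i : ℤ) : ℤ[T;T⁻¹])) * Δ = ∑ R ∈ range (m + 1), T (s R))
    (hc : IsCyclotomicProduct Δ) : ∃ Mu : Multiset ℕ, (∀ N ∈ Mu, 0 < N) ∧
      ∀ φ : ℝ, ∃ c : ℂ, c ≠ 0 ∧ cyP Mu φ =
        c * ∑ R ∈ range (m + 1), Complex.exp (φ * Complex.I) ^ (2 * s R) := by
  obtain ⟨M, hM, hU⟩ := hc
  refine ⟨((m + 1).divisors.erase 1).val + M, ?_, ?_⟩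
  · intro N hN
    rcases Multiset.mem_add.1 hN with h1 | h1
    · exact Nat.pos_of_mem_divisors (Finset.mem_of_mem_erase h1)
    · exact hM N h1
  · have hG : (∑ i ∈ range (m + 1), (T (i : ℤ) : ℤ[T;T⁻¹])) =
        toLaurent (((((m + 1).divisors.erase 1).val).map (fun N => cyclotomic N ℤ)).prod) := by
      have h1 := prod_cyclotomic_eq_geom_sum (Nat.succ_pos m) ℤ
      have h2 : ((((m + 1).divisors.erase 1).val).map (fun N => cyclotomic N ℤ)).prod =
          ∑ i ∈ range (m + 1), (X : ℤ[X]) ^ i := by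
        rw [← h1]
        rfl
      rw [h2, map_sum]
      exact Finset.sum_congr rfl fun i _ => by rw [toLaurent_X_pow]
    have h4 := UpToUnit.mul_left (∑ i ∈ range (m + 1), (T (i : ℤ) : ℤ[T;T⁻¹])) hU
    rw [h, hG, ← map_mul, ← Multiset.prod_add, ← Multiset.map_add] at h4
    intro φ
    have hx0 : Complex.exp (2 * φ * Complex.I) ≠ 0 := Complex.exp_ne_zero _
    set x : ℂˣ := Units.mk0 (Complex.exp (2 * φ * Complex.I)) hx0 with hx
    have hxy : ∀ k : ℤ, ((x ^ k : ℂˣ) : ℂ) = Complex.exp (φ * Complex.I) ^ (2 * k) := by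
      intro k
      rw [Units.val_zpow_eq_zpow_val, zpow_mul, hx, Units.val_mk0]
      congr 1
      rw [← Complex.exp_int_mul]
      congr 1
      push_cast
      ring
    have hev : ∀ Mu : Multiset ℕ, LaurentPolynomial.eval₂ (Int.castRingHom ℂ) x
        (toLaurent ((Mu.map (fun N => cyclotomic N ℤ)).prod)) = cyP Mu φ := by
      intro Mu
      rw [LaurentPolynomial.eval₂_toLaurent]
      unfold cyP
      rw [← Polynomial.eval_map, Polynomial.map_multiset_prod, Multiset.map_map]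
      congr 3
      funext N
      exact map_cyclotomic N _
    obtain ⟨k, h5⟩ := h4
    have hevT : ∀ j : ℤ, LaurentPolynomial.eval₂ (Int.castRingHom ℂ) x (T j) =
        Complex.exp (φ * Complex.I) ^ (2 * j) := by
      intro j
      rw [LaurentPolynomial.eval₂_T, hxy]
    have hne : Complex.exp (φ * Complex.I) ^ (2 * k) ≠ 0 := zpow_ne_zero _ (Complex.exp_ne_zero _)
    rcases h5 with h5 | h5
    · have h6 := congrArg (LaurentPolynomial.eval₂ (Int.castRingHom ℂ) x) h5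
      rw [map_sum, map_mul, hev, hevT] at h6
      simp only [hevT] at h6
      refine ⟨(Complex.exp (φ * Complex.I) ^ (2 * k))⁻¹, inv_ne_zero hne, ?_⟩
      rw [h6, ← mul_assoc, inv_mul_cancel₀ hne, one_mul]
    · have h6 := congrArg (LaurentPolynomial.eval₂ (Int.castRingHom ℂ) x) h5
      rw [map_sum, map_neg, map_mul, hev, hevT] at h6
      simp only [hevT] at h6
      refine ⟨-(Complex.exp (φ * Complex.I) ^ (2 * k))⁻¹, neg_ne_zero.2 (inv_ne_zero hne), ?_⟩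
      rw [h6, neg_mul_neg, ← mul_assoc, inv_mul_cancel₀ hne, one_mul]

end Pool.Agent.Helper71.FT
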