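import Mathlib
import Pool.Agent.Helper71.FT.Defs
import Pool.Agent.Helper27.TT.D1

/-!
# FT-T: the torus knots

* `b = 1`: `cross m m 1 = rn m 0 m`, so `ft m m 1 M = rn m 0 m * (rn m 0 m ^ (m + 1)) ^ M = rn m 0 m ^ (M (m + 1) + 1)`.
* `a = 1`: `cross m 1 m = σ_0 σ_1 ⋯ σ_{m-1} = up m m` (`d1_up_eq`, `braidalg_rn_one`); `up_conj m m` conjugates it to `rn m 0 m`, and the full twist
  is central (`central`), also its powers (`Commute.zpow_right`).
* `torus_iterZ`: as `torus_iter` in `OB/Iter.lean`: `IsIterTorus.cable 0 (m + 1) m k []`.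
-/

set_option autoImplicit false

namespace Pool.Agent.Helper71.FT

open Pool.Agent.Helper62.OB Pool.Agent.Helper27.TT

private theorem tor_cross_one (m : ℕ) : cross m 1 m = up m m := by
  rw [d1_up_eq]
  unfold cross
  congr 1
  apply List.map_congr_left
  intro j _
  exact braidalg_rn_one m j

private theorem tor_twist (m : ℕ) (M : ℤ) :
    rn m 0 m * (rn m 0 m ^ (m + 1)) ^ M = rn m 0 m ^ (M * (m + 1) + 1) := by
  rw [← zpow_natCast (rn m 0 m) (m + 1), ← zpow_mul, ← zpow_one_add]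
  congr 1
  push_cast
  ring

theorem torus_case (m a b : ℕ) (hab : a + b = m + 1) (h : a = 1 ∨ b = 1) (M : ℤ) :
    SameClosure ⟨m, ft m a b M⟩ ⟨m, rn m 0 m ^ (M * (m + 1) + 1)⟩ := by
  rcases h with h | h
  · subst h
    have hb : b = m := by omega
    subst hb
    obtain ⟨g, -, hg⟩ := up_conj b b le_rfl
    have hz : Commute ((rn b 0 b ^ (b + 1)) ^ M) g⁻¹ := by
      have h1 : Commute (rn b 0 b ^ (b + 1)) g⁻¹ := central b g⁻¹
      exact h1.zpow_left M
    have h1 : rn b 0 b ^ (M * (b + 1) + 1) = g * ft b 1 b M * g⁻¹ := by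
      rw [← tor_twist b M]
      unfold ft
      rw [tor_cross_one]
      calc rn b 0 b * (rn b 0 b ^ (b + 1)) ^ M
          = g * up b b * g⁻¹ * (rn b 0 b ^ (b + 1)) ^ M := by rw [hg]
        _ = g * up b b * (g⁻¹ * (rn b 0 b ^ (b + 1)) ^ M) := by simp only [mul_assoc]
        _ = g * up b b * ((rn b 0 b ^ (b + 1)) ^ M * g⁻¹) := by rw [hz.eq]
        _ = g * (up b b * (rn b 0 b ^ (b + 1)) ^ M) * g⁻¹ := by simp only [mul_assoc]
    rw [h1]
    exact sameClosure_conj b _ g
  · subst h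
    have ha : a = m := by omega
    subst ha
    have h1 : ft a a 1 M = rn a 0 a ^ (M * (a + 1) + 1) := by
      rw [← tor_twist a M]
      unfold ft cross
      simp
    rw [h1]
    exact Relation.EqvGen.refl _

theorem torus_iterZ (m : ℕ) (k : ℤ) (hk : IsCoprime ((m : ℤ) + 1) k) :
    IsIterTorus ⟨m, rn m 0 m ^ k⟩ := by
  have h1 := IsIterTorus.cable 0 (m + 1) m k [] (Nat.succ_pos m) (by ring)
    (by push_cast; exact hk) IsIterTorus.unknot
  simpa [cabled] using h1

end Pool.Agent.Helper71.FT
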