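import Mathlib
import Pool.Agent.Helper71.FT.End
import Pool.Agent.Helper71.FT.BurD
import Pool.Agent.Helper71.FT.Tor

/-!
# Torus knots with full twists on all strands
-/

set_option autoImplicit false

namespace Pool.Agent.Helper71.FT

open Finset Polynomial LaurentPolynomial
open Pool.Agent.Helper62.OB Pool.Agent.Helper27.TT

theorem tau_symm {n a b R : ℕ} (hab : a + b = n) (hR : R < n) (hc : Nat.Coprime n b) :
    tau n b a R = tau n a b R := by
  rcases Nat.eq_zero_or_pos R with h0 | h0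
  · rw [h0]
    unfold tau
    simp
  have hn : 0 < n := by omega
  have h1 := Nat.div_add_mod (R * b) n
  have h2 := Nat.mod_lt (R * b) hn
  have h3 : R * b % n ≠ 0 := by
    intro h
    have h4 : n ∣ R := hc.dvd_of_dvd_mul_right (Nat.dvd_of_mod_eq_zero h)
    exact absurd (Nat.le_of_dvd h0 h4) (by omega)
  rw [tau_eq (a := a) (Q := R * b / n) (j := R * b % n) h1.symm h2]
  set Q := R * b / n
  set j := R * b % n
  have h4 : R * a + R * b = R * n := by rw [← mul_add, hab]
  obtain ⟨t, ht⟩ : ∃ t, R = Q + 1 + t := by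
    refine ⟨R - (Q + 1), ?_⟩
    by_contra hcon
    have h5 : R ≤ Q := by omega
    have h6 : R * n ≤ n * Q := by
      rw [mul_comm n Q]
      exact Nat.mul_le_mul_right n h5
    omega
  have h7 : R * n = n * Q + n + n * t := by
    rw [ht]
    ring
  rw [tau_eq (a := b) (b := a) (R := R) (Q := t) (j := n - j) (by omega) (by omega)]
  have h8 : R * b = b * Q + b + b * t := by
    rw [ht]
    ring
  have h9 : n * Q = a * Q + b * Q := by rw [← hab, add_mul]
  rcases Nat.le_total j a with h5 | h5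
  · rw [min_eq_left h5, min_eq_right (show b ≤ n - j by omega)]
    omega
  · rw [min_eq_right h5, min_eq_left (show n - j ≤ b by omega)]
    omega

/-- the numbers `l`, `q` -/
theorem exists_dat {n a b : ℕ} (ha : 2 ≤ a) (hb : 2 ≤ b) (hab : a + b = n)
    (hc : Nat.Coprime n b) :
    (∃ l q, Dat n a b l q) ∨ ∃ l q, Dat n b a l q := by
  obtain ⟨l, hl, hl1⟩ := Nat.exists_mul_mod_eq_one_of_coprime (Nat.Coprime.symm hc)
    (show 1 < n by omega)
  have h1 := Nat.div_add_mod (b * l) n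
  rw [hl1] at h1
  set q := b * l / n
  have hne : 2 * l ≠ n := by
    intro h
    have h2 : l ∣ n * q := by
      rw [← h]
      exact ⟨2 * q, by ring⟩
    have h3 : l ∣ n * q + 1 := by
      rw [h1]
      exact ⟨b, by ring⟩
    have h4 : l ∣ 1 := (Nat.dvd_add_right h2).1 h3
    have h5 := Nat.dvd_one.1 h4
    omega
  rcases Nat.lt_or_ge (2 * l) n with h2 | h2
  · left
    exact ⟨l, q, hab, ha, hb, by rw [h1]; ring, h2⟩
  · right
    obtain ⟨k, hk⟩ : ∃ k, n = l + k := ⟨n - l, by omega⟩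
    have e1 : k * a + l * n = n * (a + q) + 1 := by
      have h3 : l * n = l * a + b * l := by rw [← hab]; ring
      have h4 : n * (a + q) + 1 = n * a + b * l := by rw [mul_add, add_assoc, h1]
      rw [h3, h4, hk]
      ring
    obtain ⟨r, hr⟩ : ∃ r, a + q = l + r := by
      refine ⟨a + q - l, ?_⟩
      by_contra hcon
      have h5 : a + q + 1 ≤ l := by omega
      have h6 : (a + q + 1) * n ≤ l * n := Nat.mul_le_mul_right n h5
      nlinarith
    refine ⟨k, r, by omega, hb, ha, ?_, by omega⟩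
    rw [hr] at e1
    nlinarith

theorem one_of_cyc (m a b : ℕ) (M : ℤ) (ha : 1 ≤ a) (hb : 1 ≤ b) (hab : a + b = m + 1)
    (hc : Nat.Coprime a b) (hM : M ≠ 0)
    (hΔ : IsCyclotomicProduct (alexander (ft m a b M))) : a = 1 ∨ b = 1 := by
  by_contra hcon
  push Not at hcon
  have ha2 : 2 ≤ a := by omega
  have hb2 : 2 ≤ b := by omega
  have hcn : Nat.Coprime (m + 1) b := by
    rw [← hab, Nat.coprime_add_self_left]
    exact hc
  have hf := alex_formula m a b ha hb hab hc M hM
  have e : ∀ R : ℕ, M * ((m : ℤ) + 1) * R + tau (m + 1) a b R = sR (m + 1) a b M R := by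
    intro R
    unfold sR
    push_cast
    ring
  simp only [e] at hf
  rcases exists_dat ha2 hb2 hab hcn with ⟨l, q, D⟩ | ⟨l, q, D⟩
  · obtain ⟨Mu, h1, h2⟩ := cyP_of m _ (sR (m + 1) a b M) hf hΔ
    exact no_cyc D M hM Mu h1 h2
  · have e2 : ∑ R ∈ range (m + 1), (T (sR (m + 1) a b M R) : ℤ[T;T⁻¹]) =
        ∑ R ∈ range (m + 1), T (sR (m + 1) b a M R) := by
      refine sum_congr rfl fun R hR => ?_
      unfold sR
      rw [tau_symm hab (mem_range.1 hR) hcn]
    rw [e2] at hf
    obtain ⟨Mu, h1, h2⟩ := cyP_of m _ (sR (m + 1) b a M) hf hΔ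
    exact no_cyc D M hM Mu h1 h2

theorem main (m a b : ℕ) (M : ℤ) (ha : 1 ≤ a) (hb : 1 ≤ b) (hab : a + b = m + 1)
    (hc : Nat.Coprime a b) (hM : M ≠ 0)
    (hΔ : IsCyclotomicProduct (alexander (ft m a b M))) :
    (a = 1 ∨ b = 1) ∧ SameClosure ⟨m, ft m a b M⟩ ⟨m, rn m 0 m ^ (M * (m + 1) + 1)⟩ ∧
      IsIterTorus ⟨m, ft m a b M⟩ := by
  have h1 := one_of_cyc m a b M ha hb hab hc hM hΔ
  have h2 := torus_case m a b hab h1 M
  refine ⟨h1, h2, IsIterTorus.markov _ _ (Relation.EqvGen.symm _ _ h2) (torus_iterZ m _ ?_)⟩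
  exact ⟨-M, 1, by ring⟩

end Pool.Agent.Helper71.FT
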